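import Pool.Agent.H719R4.FX.Alg2

/-! Passing from the coordinates `x, y` to `z = x + iy, w = x - iy`. -/

open Complex Set Filter Topology Polynomial

open scoped Polynomial.Bivariate

namespace Pool.Agent.V5helper83.OA

noncomputable def xp : ℂ[X][Y] := C (C (1 / 2) * X) + C (C (1 / 2)) * X

noncomputable def yp : ℂ[X][Y] := C (C (-I / 2) * X) + C (C (I / 2)) * X

/-- the substitution -/
noncomputable def sb : ℂ[X][Y] →+* ℂ[X][Y] :=
  eval₂RingHom (eval₂RingHom ((C : ℂ[X] →+* ℂ[X][Y]).comp C) xp) yp

theorem sb_eval (P : ℂ[X][Y]) (z w : ℂ) :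
    (sb P).evalEval z w = P.evalEval ((z + w) / 2) (-I * (z - w) / 2) := by
  have h : (evalEvalRingHom z w).comp sb = evalEvalRingHom ((z + w) / 2) (-I * (z - w) / 2) := by
    refine Polynomial.ringHom_ext' (Polynomial.ringHom_ext' ?_ ?_) ?_
    · ext a
      simp [sb, evalEvalRingHom]
    · simp only [sb, RingHom.comp_apply, coe_eval₂RingHom, eval₂_C, eval₂_X, xp, evalEvalRingHom,
        coe_evalRingHom, eval_add, eval_mul, eval_C, eval_X]
      ring
    · simp only [sb, RingHom.comp_apply, coe_eval₂RingHom, eval₂_X, yp, evalEvalRingHom,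
        coe_evalRingHom, eval_add, eval_mul, eval_C, eval_X]
      ring
  exact congrArg (fun f => f P) h

theorem evalEval_zero {P : ℂ[X][Y]} (h : ∀ x y : ℂ, P.evalEval x y = 0) : P = 0 := by
  ext n
  have h1 : P.coeff n = 0 := by
    refine Polynomial.funext fun x => ?_
    have h2 : P.map (evalRingHom x) = 0 := by
      refine Polynomial.funext fun y => ?_
      rw [Polynomial.map_evalRingHom_eval, h x y, eval_zero]
    have h3 := congrArg (fun Q => Q.coeff n) h2
    simpa using h3
  rw [h1]
  simp

theorem sb_ne {P : ℂ[X][Y]} (hP : P ≠ 0) : sb P ≠ 0 := by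
  intro h
  apply hP
  refine evalEval_zero fun x y => ?_
  have h1 := sb_eval P (x + I * y) (x - I * y)
  rw [h, Polynomial.evalEval_zero] at h1
  have e1 : (x + I * y + (x - I * y)) / 2 = x := by ring
  have e2 : -I * (x + I * y - (x - I * y)) / 2 = y := by
    ring_nf
    rw [I_sq]
    ring
  rw [e1, e2] at h1
  exact h1.symm

end Pool.Agent.V5helper83.OA
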