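import Pool.Agent.H719R4.FZ.ABZ
import Pool.Agent.H719R4.FZ.ABC

/-! A curve with its exceptional set, contained in a given curve (adapted from ABZ). -/

open Complex Set Filter Topology Polynomial

open scoped Polynomial.Bivariate

namespace Pool.Agent.V5helper83.OA

open H719FX H738CZ

theorem abx (A : ℂ[X][Y]) (hA : A ≠ 0) (Z W : ℂ → ℂ) (c : ℂ) (r : ℝ) (hr : 0 < r)
    (hZ : DifferentiableOn ℂ Z (Metric.ball c r)) (hW : DifferentiableOn ℂ W (Metric.ball c r))
    (h : ∀ t ∈ Metric.ball c r, deriv Z t ≠ 0 ∧ deriv W t ≠ 0 ∧ Wr Z W t ≠ 0 ∧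
      A.evalEval (Z t) (W t) = 0) :
    ∃ (A' : ℂ[X][Y]) (B : Set ℂ), ACurve A' B ∧
      (∀ t ∈ Metric.ball c r, A'.evalEval (Z t) (W t) = 0) ∧
      ∀ z ∉ B, ∀ w, A'.evalEval z w = 0 → A.evalEval z w = 0 := by
  set U := Metric.ball c r with hU
  have hUo : IsOpen U := Metric.isOpen_ball
  have hUc : IsPreconnected U := (convex_ball c r).isPreconnected
  have hUn : U.Nonempty := ⟨c, Metric.mem_ball_self hr⟩
  have hI := ABZ_prime Z W U hUo hUc hUn hZ hW
  have hconst : ∀ a : ℂ[X], (C a : ℂ[X][Y]) ∈ ABZ_I Z W U → a = 0 := by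
    intro a ha
    rw [ABZ_mem] at ha
    refine ABZ_const Z W U hUo hUn hZ (fun t ht => (h t ht).1) a.natDegree a rfl fun t ht => ?_
    have h1 := ha t ht
    rwa [evalEval_C] at h1
  have hex : ∃ n : ℕ, ∃ P ∈ ABZ_I Z W U, P ≠ 0 ∧ P.natDegree = n :=
    ⟨A.natDegree, A, (ABZ_mem _ _ _ _).mpr fun t ht => (h t ht).2.2.2, hA, rfl⟩
  classical
  obtain ⟨A', hA'I, hA'0, hA'n⟩ := Nat.find_spec hex
  have hmin : ∀ P ∈ ABZ_I Z W U, P ≠ 0 → A'.natDegree ≤ P.natDegree := by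
    intro P hP hP0
    rw [hA'n]
    exact Nat.find_min' hex ⟨P, hP, hP0, rfl⟩
  have hA'Z := (ABZ_mem _ _ _ _).mp hA'I
  have hdeg : 0 < A'.natDegree := by
    rcases Nat.eq_zero_or_pos A'.natDegree with h0 | h0
    · exfalso
      have h1 := eq_C_of_natDegree_eq_zero h0
      rw [h1] at hA'I
      have h2 := hconst _ hA'I
      rw [h2, C_0] at h1
      exact hA'0 h1
    · exact h0
  have hAy : derivative A' ∉ ABZ_I Z W U := by
    intro h1
    have h2 : derivative A' ≠ 0 := by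
      intro h3
      have h4 := derivative_eq_zero.mp h3
      omega
    have h3 := hmin _ h1 h2
    have h4 := natDegree_derivative_lt (p := A') (by omega)
    omega
  have htwo : ∀ t ∈ U, (ABZ_Dx A').evalEval (Z t) (W t) * deriv Z t
      + A'.derivative.evalEval (Z t) (W t) * deriv W t = 0 ∧
      (ABZ_N A').evalEval (Z t) (W t) * deriv Z t ^ 3 =
        - A'.derivative.evalEval (Z t) (W t) ^ 3 * Wr Z W t := by
    intro t ht
    apply ABZ_two A' Z W t (hZ.analyticAt (hUo.mem_nhds ht)) (hW.analyticAt (hUo.mem_nhds ht))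
    filter_upwards [hUo.mem_nhds ht] with s hs
    exact hA'Z s hs
  have hAx : ABZ_Dx A' ∉ ABZ_I Z W U := by
    intro h1
    apply hAy
    rw [ABZ_mem] at h1 ⊢
    intro t ht
    have h2 := (htwo t ht).1
    rw [h1 t ht, zero_mul, zero_add] at h2
    exact (mul_eq_zero.mp h2).resolve_right (h t ht).2.1
  have hN : ABZ_N A' ∉ ABZ_I Z W U := by
    intro h1
    apply hAy
    rw [ABZ_mem] at h1 ⊢
    intro t ht
    have h2 := (htwo t ht).2
    rw [h1 t ht, zero_mul] at h2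
    have h3 := (mul_eq_zero.mp h2.symm).resolve_right (h t ht).2.2.1
    exact pow_eq_zero_iff (by norm_num : (3 : ℕ) ≠ 0) |>.mp (neg_eq_zero.mp h3)
  obtain ⟨U1, V1, D1, hD1, e1⟩ := tABC _ hI hconst A' hA'I hA'0 hmin _ hAy
  obtain ⟨U2, V2, D2, hD2, e2⟩ := tABC _ hI hconst A' hA'I hA'0 hmin _ hAx
  obtain ⟨U3, V3, D3, hD3, e3⟩ := tABC _ hI hconst A' hA'I hA'0 hmin _ hN
  have hAI : A ∈ ABZ_I Z W U := (ABZ_mem _ _ _ _).mpr fun t ht => (h t ht).2.2.2
  obtain ⟨D4, Q4, hD4, e4⟩ := ABC_div (ABZ_I Z W U) A' hA'0 hA'I hdeg hmin (A.natDegree + 1) A hAI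
    (Nat.lt_succ_self _)
  have hkey : ∀ (U V N : ℂ[X][Y]) (D : ℂ[X]), U * A' + V * N = C D → ∀ z w : ℂ,
      D.eval z ≠ 0 → A'.evalEval z w = 0 → N.evalEval z w ≠ 0 := by
    intro U V N D e z w hD h0 h1
    have h2 : (U * A' + V * N).evalEval z w = (C D : ℂ[X][Y]).evalEval z w := by rw [e]
    rw [evalEval_add, evalEval_mul, evalEval_mul, h0, h1, evalEval_C, mul_zero, mul_zero,
      add_zero] at h2
    exact hD h2.symm
  set Q : ℂ[X] := D1 * D2 * D3 * A'.leadingCoeff * D4 with hQ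
  have hQ0 : Q ≠ 0 := mul_ne_zero (mul_ne_zero (mul_ne_zero (mul_ne_zero hD1 hD2) hD3)
    (leadingCoeff_ne_zero.mpr hA'0)) hD4
  have hB : ∀ z ∉ {z : ℂ | Q.IsRoot z}, D1.eval z ≠ 0 ∧ D2.eval z ≠ 0 ∧ D3.eval z ≠ 0 ∧
      A'.leadingCoeff.eval z ≠ 0 ∧ D4.eval z ≠ 0 := by
    intro z hz
    have h1 : Q.eval z ≠ 0 := hz
    rw [hQ, eval_mul, eval_mul, eval_mul, eval_mul] at h1
    refine ⟨?_, ?_, ?_, ?_, ?_⟩
    · intro h2
      apply h1
      rw [h2]
      ring
    · intro h2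
      apply h1
      rw [h2]
      ring
    · intro h2
      apply h1
      rw [h2]
      ring
    · intro h2
      apply h1
      rw [h2]
      ring
    · intro h2
      apply h1
      rw [h2]
      ring
  refine ⟨A', {z : ℂ | Q.IsRoot z}, ⟨finite_setOfPred_isRoot hQ0, hdeg, ?_, ?_, ?_⟩, hA'Z, ?_⟩
  · intro z hz
    exact (hB z hz).2.2.2.1
  · intro z hz w hw
    exact hkey _ _ _ _ e1 z w (hB z hz).1 hw
  · intro z hz ω hω hev
    have h0 : A'.evalEval z (ω z) = 0 := hev.self_of_nhds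
    have hx := hkey _ _ _ _ e2 z (ω z) (hB z hz).2.1 h0
    have hn := hkey _ _ _ _ e3 z (ω z) (hB z hz).2.2.1 h0
    obtain ⟨h1, h2⟩ := ABZ_two A' (fun x => x) ω z analyticAt_id hω hev
    have hd1 : deriv (fun x : ℂ => x) z = 1 := by
      rw [deriv_id'']
    have hd2 : deriv (deriv (fun x : ℂ => x)) z = 0 := by
      rw [deriv_id'']
      exact deriv_const z 1
    unfold Wr at h2
    rw [hd1] at h1 h2
    rw [hd2] at h2
    refine ⟨?_, ?_⟩
    · intro h3
      apply hx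
      rw [h3, mul_one, mul_zero, add_zero] at h1
      exact h1
    · intro h3
      apply hn
      rw [h3] at h2
      have h4 : (ABZ_N A').evalEval z (ω z) = (ABZ_N A').evalEval z (ω z) * 1 ^ 3 := by ring
      rw [h4, h2]
      ring
  · intro z hz w h0
    have h2 : (C D4 * A : ℂ[X][Y]).evalEval z w = (Q4 * A').evalEval z w := by rw [e4]
    rw [evalEval_mul, evalEval_mul, h0, evalEval_C, mul_zero] at h2
    exact (mul_eq_zero.mp h2).resolve_left (hB z hz).2.2.2.2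

end Pool.Agent.V5helper83.OA
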