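import Pool.Agent.V5helper83.OA.Place
import Pool.Agent.H719R4.FX.AGS
import Pool.Agent.H719R4.FX.AGP
import Pool.Agent.H719R4.FX.ALO
import Pool.Agent.H719R4.FZ.ASH
import Pool.Agent.H719R4.FZ.ACV
import Pool.Agent.H719R4.FZ.AUN
import Pool.Agent.H719R4.FZ.AHP
import Pool.Agent.H719R4.FZ.AME
import Pool.Agent.H719R4.FZ.ABD
import Pool.Agent.H719R4.FZ.ALI
import Pool.Agent.H719R4.FZ.AGL

/-! Good points of an algebraic curve for the outer billiard (adapted from AGS, AGP, ABD, AGL). -/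

open Complex Set Filter Topology Polynomial

open scoped Polynomial.Bivariate

namespace Pool.Agent.V5helper83.OA

open H719FX H738CZ

/-- `(z, w)` is a good point of the curve -/
def AGX (A : ℂ[X][Y]) (z w : ℂ) : Prop :=
  ∃ ω : ℂ → ℂ, Sheet A ω z w ∧ GX (fun x => x) ω z

/-- no fast asymptotes -/
def SlowC (A : ℂ[X][Y]) (B : Set ℂ) : Prop := ∀ Z W : ℂ → ℂ, MeromorphicAt Z 0 →
  MeromorphicAt W 0 → (∀ᶠ t in 𝓝[≠] (0 : ℂ), Z t ∉ B ∧ A.evalEval (Z t) (W t) = 0) → Slow Z W 0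

theorem fin_ash : StASH := tASH tALO

theorem fin_ahp : StAHP := tAHP (tACV tALO fin_ash) (tAUN fin_ash)

theorem ags_iff {A : ℂ[X][Y]} {B : Set ℂ}
    (hA : ACurve A B)
    {U : Set ℂ} {f g : ℂ → ℂ} (hU : IsOpen U) (hf : DifferentiableOn ℂ f U)
    (hg : DifferentiableOn ℂ g U)
    (h : ∀ x ∈ U, deriv f x ≠ 0 ∧ f x ∉ B ∧ A.evalEval (f x) (g x) = 0)
    {x : ℂ} (hx : x ∈ U) : AGX A (f x) (g x) ↔ GX f g x := by
  obtain ⟨h1, h2, h3⟩ := h x hx
  have hfa : AnalyticAt ℂ f x := hf.analyticAt (hU.mem_nhds hx)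
  constructor
  · rintro ⟨ω, hω, hG⟩
    obtain ⟨hE, -, -⟩ := AGS_loc tAMI tALO hA hU hf hg h hx ω hω
    exact GX_congr ((@GX_comp (fun x => x) ω f x hfa h1 analyticAt_id hω.1).2 hG)
      (EventuallyEq.refl _ _) hE.symm
  · intro hG
    obtain ⟨ω, hω⟩ := (tALO A B hA (f x) h2 (g x) h3).1
    obtain ⟨hE, -, -⟩ := AGS_loc tAMI tALO hA hU hf hg h hx ω hω
    exact ⟨ω, hω, (@GX_comp (fun x => x) ω f x hfa h1 analyticAt_id hω.1).1
      (GX_congr hG (EventuallyEq.refl _ _) hE)⟩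

theorem ags {A : ℂ[X][Y]} {B : Set ℂ} (hA : ACurve A B) (U : Set ℂ) (f g : ℂ → ℂ)
    (hU : IsOpen U) (hUc : Convex ℝ U) (hf : DifferentiableOn ℂ f U)
    (hg : DifferentiableOn ℂ g U)
    (h : ∀ x ∈ U, deriv f x ≠ 0 ∧ f x ∉ B ∧ A.evalEval (f x) (g x) = 0)
    (a : ℂ) (ha : a ∈ U) (hAG : AGX A (f a) (g a)) (b : ℂ) (hb : b ∈ U) :
    AGX A (f b) (g b) ∧ GX f g b := by
  have hGa : GX f g a := (ags_iff hA hU hf hg h ha).1 hAG
  have hGb : GX f g b := by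
    refine GX_seg hU hf hg ?_ (hUc.segment_subset ha hb) hGa
    intro t ht
    obtain ⟨h1, h2, h3⟩ := h t ht
    obtain ⟨ω, hω⟩ := (tALO A B hA (f t) h2 (g t) h3).1
    obtain ⟨-, h4, h5⟩ := AGS_loc tAMI tALO hA hU hf hg h ht ω hω
    exact ⟨h1, h4, h5⟩
  exact ⟨(ags_iff hA hU hf hg h hb).2 hGb, hGb⟩

theorem agp {A : ℂ[X][Y]} {B : Set ℂ} (hA : ACurve A B) (q W : ℂ → ℂ) (ε : ℝ) (N : ℕ)
    (hε : 0 < ε) (hN : 1 ≤ N) (hq : DifferentiableOn ℂ q (PD ε 1))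
    (hqd : ∀ t ∈ PD ε 1, deriv q t ≠ 0 ∧ q t ∉ B) (hW : DifferentiableOn ℂ W (PD ε N))
    (hAW : ∀ t ∈ PD ε N, A.evalEval (q (t ^ N)) (W t) = 0) (t1 : ℂ) (ht1 : t1 ∈ PD ε N)
    (hAG : AGX A (q (t1 ^ N)) (W t1)) :
    ∀ t ∈ PD ε N, AGX A (q (t ^ N)) (W t) ∧ GX (fun x => q (x ^ N)) W t := by
  set H : Set ℂ := {ζ : ℂ | (N : ℝ) * ζ.re < Real.log ε} with hH
  have hHo : IsOpen H := by
    rw [hH]
    exact isOpen_lt (continuous_const.mul Complex.continuous_re) continuous_const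
  have hHc : Convex ℝ H := by
    intro x hx y hy a b ha hb hab
    have hx' : (N : ℝ) * x.re < Real.log ε := hx
    have hy' : (N : ℝ) * y.re < Real.log ε := hy
    show (N : ℝ) * (a • x + b • y).re < Real.log ε
    have h1 : (a • x + b • y).re = a * x.re + b * y.re := by simp
    rw [h1]
    have h2 : (N : ℝ) * (a * x.re + b * y.re) = a * (N * x.re) + b * (N * y.re) := by ring
    rw [h2]
    rcases eq_or_lt_of_le ha with ha0 | ha0
    · rw [← ha0] at hab ⊢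
      have hb1 : b = 1 := by linarith
      rw [hb1]
      linarith
    · have h3 : a * ((N : ℝ) * x.re) < a * Real.log ε := mul_lt_mul_of_pos_left hx' ha0
      have h4 : b * ((N : ℝ) * y.re) ≤ b * Real.log ε := mul_le_mul_of_nonneg_left hy'.le hb
      have h5 : a * Real.log ε + b * Real.log ε = Real.log ε := by rw [← add_mul, hab, one_mul]
      linarith
  have hexp : ∀ ζ ∈ H, Complex.exp ζ ∈ PD ε N := by
    intro ζ hζ
    refine ⟨?_, ?_⟩
    · rw [Complex.norm_exp]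
      exact Real.exp_pos _
    · rw [AGP_norm_exp_pow]
      have h1 : (N : ℝ) * ζ.re < Real.log ε := hζ
      calc Real.exp (N * ζ.re) < Real.exp (Real.log ε) := Real.exp_lt_exp.mpr h1
        _ = ε := Real.exp_log hε
  have hlog : ∀ t ∈ PD ε N, Complex.log t ∈ H ∧ Complex.exp (Complex.log t) = t := by
    intro t ht
    have ht0 : t ≠ 0 := norm_pos_iff.mp ht.1
    refine ⟨?_, Complex.exp_log ht0⟩
    show (N : ℝ) * (Complex.log t).re < Real.log ε
    rw [Complex.log_re, ← Real.log_pow]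
    exact Real.log_lt_log (pow_pos ht.1 N) ht.2
  have hPDo := AGP_isOpen_PD ε N
  have hZ : DifferentiableOn ℂ (fun x => q (x ^ N)) (PD ε N) := by
    refine hq.comp (differentiable_pow N).differentiableOn ?_
    intro t ht
    exact AGP_pow_mem ht
  have hf : DifferentiableOn ℂ (fun ζ => q (Complex.exp ζ ^ N)) H :=
    hZ.comp Complex.differentiable_exp.differentiableOn hexp
  have hg : DifferentiableOn ℂ (fun ζ => W (Complex.exp ζ)) H :=
    hW.comp Complex.differentiable_exp.differentiableOn hexp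
  have hprop : ∀ x ∈ H, deriv (fun ζ => q (Complex.exp ζ ^ N)) x ≠ 0 ∧
      (fun ζ => q (Complex.exp ζ ^ N)) x ∉ B ∧
      A.evalEval ((fun ζ => q (Complex.exp ζ ^ N)) x) ((fun ζ => W (Complex.exp ζ)) x) = 0 := by
    intro x hx
    have h1 := hexp x hx
    have h2 := AGP_pow_mem h1
    refine ⟨?_, (hqd _ h2).2, hAW _ h1⟩
    have hqat : HasDerivAt q (deriv q (Complex.exp x ^ N)) (Complex.exp x ^ N) :=
      ((hq _ h2).differentiableAt ((AGP_isOpen_PD ε 1).mem_nhds h2)).hasDerivAt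
    have hpw : HasDerivAt (fun ζ => Complex.exp ζ ^ N)
        ((N : ℂ) * Complex.exp x ^ (N - 1) * Complex.exp x) x :=
      (Complex.hasDerivAt_exp x).pow N
    have hcomp := HasDerivAt.comp x hqat hpw
    have hd : deriv (fun ζ => q (Complex.exp ζ ^ N)) x =
        deriv q (Complex.exp x ^ N) * ((N : ℂ) * Complex.exp x ^ (N - 1) * Complex.exp x) :=
      hcomp.deriv
    rw [hd]
    refine mul_ne_zero (hqd _ h2).1 (mul_ne_zero (mul_ne_zero ?_ ?_) (Complex.exp_ne_zero x))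
    · exact_mod_cast (by omega : N ≠ 0)
    · exact pow_ne_zero _ (Complex.exp_ne_zero x)
  intro t ht
  obtain ⟨ha, hea⟩ := hlog t1 ht1
  obtain ⟨hb, heb⟩ := hlog t ht
  have key := ags hA H _ _ hHo hHc hf hg hprop (Complex.log t1) ha (by
    show AGX A (q (Complex.exp (Complex.log t1) ^ N)) (W (Complex.exp (Complex.log t1)))
    rw [hea]
    exact hAG) (Complex.log t) hb
  obtain ⟨k1, k2⟩ := key
  have k1' : AGX A (q (Complex.exp (Complex.log t) ^ N)) (W (Complex.exp (Complex.log t))) := k1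
  rw [heb] at k1'
  refine ⟨k1', ?_⟩
  have hmem : Complex.exp (Complex.log t) ∈ PD ε N := by rw [heb]; exact ht
  have k3 := (@GX_comp (fun x => q (x ^ N)) W Complex.exp (Complex.log t) (Complex.differentiable_exp.analyticAt _)
    (by rw [Complex.deriv_exp]; exact Complex.exp_ne_zero _)
    (hZ.analyticAt (hPDo.mem_nhds hmem)) (hW.analyticAt (hPDo.mem_nhds hmem))).1 k2
  rwa [heb] at k3

/-- the bound at one place -/
theorem abd_place {A : ℂ[X][Y]} {B : Set ℂ}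
    (hAC : ACurve A B) (hS : SlowC A B) (q : ℂ → ℂ) (ε : ℝ) (hε : 0 < ε) (hq0 : MeromorphicAt q 0)
    (hqd : DifferentiableOn ℂ q (PD ε 1)) (hq : ∀ t ∈ PD ε 1, deriv q t ≠ 0 ∧ q t ∉ B)
    (N : ℕ) (hN : 1 ≤ N) (W : ℂ → ℂ) (hW : DifferentiableOn ℂ W (PD ε N))
    (hAW : ∀ t ∈ PD ε N, A.evalEval (q (t ^ N)) (W t) = 0) :
    ∃ C δ : ℝ, 0 < δ ∧ ∀ t ∈ PD ε N, ‖t‖ < δ → AGX A (q (t ^ N)) (W t) →
      ‖Mi (fun x => q (x ^ N)) W t‖ ^ 3 ≤ C * ‖Wr (fun x => q (x ^ N)) W t‖ ^ 8 := by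
  by_cases hex : ∃ t1 ∈ PD ε N, AGX A (q (t1 ^ N)) (W t1)
  · obtain ⟨t1, ht1, hAG1⟩ := hex
    have hall := agp hAC q W ε N hε hN hqd hq hW hAW t1 ht1 hAG1
    have hWm : MeromorphicAt W 0 := tAME A B hAC q W ε N hε hN hq0 (fun t ht => (hq t ht).2) hW hAW
    have hqm : MeromorphicAt (fun x : ℂ => q (x ^ N)) 0 := by
      have h1 : MeromorphicAt q ((fun x : ℂ => x ^ N) 0) := by
        show MeromorphicAt q ((0 : ℂ) ^ N)
        rw [zero_pow (by omega)]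
        exact hq0
      have h2 : AnalyticAt ℂ (fun x : ℂ => x ^ N) 0 := by fun_prop
      exact MeromorphicAt.comp_analyticAt (f := q) (g := fun x : ℂ => x ^ N) h1 h2
    have hb := place hqm hWm (by
      filter_upwards [ABD_near hε hN] with t ht
      exact (hall t ht).2) (hS _ _ hqm hWm (by
      filter_upwards [ABD_near hε hN] with t ht
      exact ⟨(hq _ (AGP_pow_mem ht)).2, hAW t ht⟩))
    obtain ⟨C, hC⟩ := hb
    rw [eventually_nhdsWithin_iff, Metric.eventually_nhds_iff] at hC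
    obtain ⟨δ, hδ, hC⟩ := hC
    refine ⟨C, δ, hδ, fun t ht htδ _ => ?_⟩
    exact hC (by rw [dist_zero_right]; exact htδ) (norm_pos_iff.1 ht.1)
  · push Not at hex
    exact ⟨0, 1, one_pos, fun t ht _ h => absurd h (hex t ht)⟩

theorem abd {A : ℂ[X][Y]} {B : Set ℂ} (hAC : ACurve A B) (hS : SlowC A B) (q : ℂ → ℂ)
    (ε : ℝ) (hε : 0 < ε) (hq0 : MeromorphicAt q 0) (hqd : DifferentiableOn ℂ q (PD ε 1))
    (hq : ∀ t ∈ PD ε 1, deriv q t ≠ 0 ∧ q t ∉ B) :
    ∃ C ε' : ℝ, 0 < ε' ∧ ∀ s ∈ PD ε' 1, ∀ w, AGX A (q s) w → ∀ ω, Sheet A ω (q s) w →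
      ‖Mi (fun x => x) ω (q s)‖ ^ 3 ≤ C * ‖Wr (fun x => x) ω (q s)‖ ^ 8 := by
  obtain ⟨n, N, W, hW, hcov⟩ := fin_ahp A B hAC q ε hε hqd (fun t ht => (hq t ht).2)
  choose C δ hδ hbd using fun j => abd_place hAC hS q ε hε hq0 hqd hq (N j)
    (hW j).1 (W j) (hW j).2.1 (hW j).2.2
  obtain ⟨ε', hε', hε'1, hε'2⟩ : ∃ ε' : ℝ, 0 < ε' ∧ ε' ≤ ε ∧ ∀ j, ε' ≤ δ j ^ N j := by
    have h1 : ∀ᶠ x in 𝓝[>] (0 : ℝ), ∀ j, x ≤ δ j ^ N j := by
      rw [Filter.eventually_all]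
      intro j
      have h2 : ∀ᶠ x in 𝓝 (0 : ℝ), x < δ j ^ N j :=
        eventually_lt_nhds (pow_pos (hδ j) _)
      exact (h2.filter_mono nhdsWithin_le_nhds).mono fun x hx => hx.le
    have h3 : ∀ᶠ x in 𝓝[>] (0 : ℝ), x ≤ ε :=
      ((eventually_lt_nhds hε).filter_mono nhdsWithin_le_nhds).mono fun x hx => hx.le
    have h4 : ∀ᶠ x in 𝓝[>] (0 : ℝ), 0 < x := self_mem_nhdsWithin
    obtain ⟨x, hx1, hx2, hx3⟩ := (h4.and (h3.and h1)).exists
    exact ⟨x, hx1, hx2, hx3⟩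
  refine ⟨∑ j, |C j|, ε', hε', ?_⟩
  intro s hs w hAG ω hω
  have hs' : s ∈ PD ε 1 := ⟨hs.1, hs.2.trans_le hε'1⟩
  have hev : A.evalEval (q s) w = 0 := by
    have h1 := hω.2.2.self_of_nhds
    rw [hω.2.1] at h1
    exact h1
  obtain ⟨j, t, htN, htW⟩ := hcov s hs' w hev
  have hN := (hW j).1
  have htP : t ∈ PD ε (N j) := by
    rw [← ABD_pow hN, htN]
    exact hs'
  have htδ : ‖t‖ < δ j := by
    have h1 : ‖t‖ ^ N j < δ j ^ N j := by
      rw [← norm_pow, htN]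
      have h2 := hs.2
      rw [pow_one] at h2
      exact h2.trans_le (hε'2 j)
    exact lt_of_pow_lt_pow_left₀ (N j) (hδ j).le h1
  have hb := hbd j t htP htδ (by rw [htN, htW]; exact hAG)
  set E : ℂ → ℂ := fun x => q (x ^ N j) with hE
  have hEt : E t = q s := by rw [hE]; simp only [htN]
  have hnh : PD ε 1 ∈ 𝓝 (t ^ N j) := by
    rw [htN]
    exact (ABD_open ε 1).mem_nhds hs'
  have hqa : AnalyticAt ℂ q (t ^ N j) := hqd.analyticAt hnh
  have hEa : AnalyticAt ℂ E t := by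
    have h1 : AnalyticAt ℂ (fun x : ℂ => x ^ N j) t := by fun_prop
    exact AnalyticAt.comp (g := q) (f := fun x : ℂ => x ^ N j) hqa h1
  have hE1 : deriv E t ≠ 0 := by
    have h1 : HasDerivAt (fun x : ℂ => x ^ N j) ((N j : ℂ) * t ^ (N j - 1)) t :=
      hasDerivAt_pow (N j) t
    have h2 : HasDerivAt q (deriv q (t ^ N j)) (t ^ N j) :=
      hqa.differentiableAt.hasDerivAt
    have h3 : HasDerivAt E (deriv q (t ^ N j) * ((N j : ℂ) * t ^ (N j - 1))) t :=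
      HasDerivAt.comp t h2 h1
    rw [h3.deriv]
    have h4 : t ≠ 0 := norm_pos_iff.1 htP.1
    have h5 : (N j : ℂ) ≠ 0 := by
      have : N j ≠ 0 := by omega
      exact_mod_cast this
    refine mul_ne_zero ?_ (mul_ne_zero h5 (pow_ne_zero _ h4))
    rw [htN]
    exact (hq s hs').1
  have hWc : ContinuousAt (W j) t :=
    ((hW j).2.1.differentiableAt ((ABD_open ε (N j)).mem_nhds htP)).continuousAt
  have hgerm : W j =ᶠ[𝓝 t] fun x => ω (E x) := by
    have h1 := (tALO A B hAC (q s) (hq s hs').2 w hev).2 ω hω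
    have h2 : Tendsto (fun x => (E x, W j x)) (𝓝 t) (𝓝 (q s, w)) := by
      have h3 : ContinuousAt (fun x => (E x, W j x)) t := hEa.continuousAt.prodMk hWc
      have h4 : (fun x => (E x, W j x)) t = (q s, w) := by
        simp only [hEt, htW]
      rw [← h4]
      exact h3
    filter_upwards [h2.eventually h1, (ABD_open ε (N j)).mem_nhds htP] with x h5 h6
    exact h5 ((hW j).2.2 x h6)
  obtain ⟨e1, e2⟩ := ABD_germ E (W j) (fun x => ω (E x)) t hgerm
  rw [e1, e2] at hb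
  obtain ⟨e3, e4⟩ := tAMI E ω t hEa (by rw [hEt]; exact hω.1)
  rw [e3, e4, hEt, norm_mul, norm_mul, norm_pow, norm_pow, mul_pow, mul_pow, ← pow_mul,
    ← pow_mul] at hb
  have hE1n : 0 < ‖deriv E t‖ ^ 24 := pow_pos (norm_pos_iff.2 hE1) 24
  have hb2 : ‖deriv E t‖ ^ 24 * ‖Mi (fun x => x) ω (q s)‖ ^ 3 ≤
      ‖deriv E t‖ ^ 24 * (C j * ‖Wr (fun x => x) ω (q s)‖ ^ 8) := by
    calc ‖deriv E t‖ ^ 24 * ‖Mi (fun x => x) ω (q s)‖ ^ 3
        = ‖deriv E t‖ ^ (8 * 3) * ‖Mi (fun x => x) ω (q s)‖ ^ 3 := rfl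
      _ ≤ C j * (‖deriv E t‖ ^ (3 * 8) * ‖Wr (fun x => x) ω (q s)‖ ^ 8) := hb
      _ = ‖deriv E t‖ ^ 24 * (C j * ‖Wr (fun x => x) ω (q s)‖ ^ 8) := by ring
  have hb3 := le_of_mul_le_mul_left hb2 hE1n
  refine hb3.trans (mul_le_mul_of_nonneg_right ?_ (by positivity))
  exact (le_abs_self _).trans
    (Finset.single_le_sum (f := fun j => |C j|) (fun i _ => abs_nonneg _) (Finset.mem_univ j))

/-- the product over the good points above `z` -/
noncomputable def agl_P (A : ℂ[X][Y]) (c z : ℂ) : ℂ := ∏ᶠ w ∈ {w | AGX A z w}, (AGL_mu A z w - c)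

theorem agl_local {A : ℂ[X][Y]} {B : Set ℂ}
    (hC : ACurve A B) {z1 : ℂ} (hz1 : z1 ∉ B) :
    ∃ (r : ℝ) (n : ℕ) (ω : Fin n → ℂ → ℂ) (J : Finset (Fin n)), 0 < r ∧
      Metric.ball z1 r ⊆ Bᶜ ∧
      (∀ i, ∀ z ∈ Metric.ball z1 r, Sheet A (ω i) z (ω i z)) ∧
      (∀ z ∈ Metric.ball z1 r, ∀ w, AGX A z w ↔ ∃ i ∈ J, ω i z = w) ∧
      (∀ c, ∀ z ∈ Metric.ball z1 r, agl_P A c z = ∏ i ∈ J, (AGL_R (ω i) z - c)) := by
  classical
  obtain ⟨r, n, ω, hr, hB, hd, hne, hcov⟩ := fin_ash A B hC z1 hz1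
  have hz1b : z1 ∈ Metric.ball z1 r := Metric.mem_ball_self hr
  have hsheet : ∀ i, ∀ z ∈ Metric.ball z1 r, Sheet A (ω i) z (ω i z) := by
    intro i z hz
    refine ⟨(hd i).analyticAt (Metric.isOpen_ball.mem_nhds hz), rfl, ?_⟩
    filter_upwards [Metric.isOpen_ball.mem_nhds hz] with x hx
    exact (hcov x hx (ω i x)).2 ⟨i, rfl⟩
  have hAG : ∀ i, ∀ a ∈ Metric.ball z1 r, ∀ b ∈ Metric.ball z1 r, AGX A a (ω i a) →
      AGX A b (ω i b) := by
    intro i a ha b hb h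
    refine (ags hC (Metric.ball z1 r) (fun x => x) (ω i) Metric.isOpen_ball
      (convex_ball z1 r) differentiableOn_id (hd i) (fun x hx => ⟨?_, hB hx, ?_⟩) a ha h b hb).1
    · simp
    · exact (hcov x hx (ω i x)).2 ⟨i, rfl⟩
  set J : Finset (Fin n) := Finset.univ.filter fun i => AGX A z1 (ω i z1) with hJ
  have hiff : ∀ z ∈ Metric.ball z1 r, ∀ w, AGX A z w ↔ ∃ i ∈ J, ω i z = w := by
    intro z hz w
    constructor
    · intro h
      obtain ⟨ω', hs, -⟩ := id h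
      obtain ⟨i, hi⟩ := (hcov z hz w).1 (AGL_zero hs)
      refine ⟨i, ?_, hi⟩
      rw [hJ, Finset.mem_filter]
      refine ⟨Finset.mem_univ _, hAG i z hz z1 hz1b ?_⟩
      rwa [hi]
    · rintro ⟨i, hi, rfl⟩
      rw [hJ, Finset.mem_filter] at hi
      exact hAG i z1 hz1b z hz hi.2
  refine ⟨r, n, ω, J, hr, hB, hsheet, hiff, fun c z hz => ?_⟩
  have hset : {w | AGX A z w} = ((J.image fun i => ω i z : Finset ℂ) : Set ℂ) := by
    ext w
    rw [Finset.coe_image, Set.mem_image]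
    exact hiff z hz w
  unfold agl_P
  rw [hset, finprod_mem_coe_finset, Finset.prod_image]
  · refine Finset.prod_congr rfl fun i _ => ?_
    rw [AGL_mu_eq tALO hC (hB hz) (hsheet i z hz)]
  · intro i _ j _ hij
    by_contra hc
    exact hne i j hc z hz hij

theorem agl_card {A : ℂ[X][Y]} {B : Set ℂ} (hC : ACurve A B) {z : ℂ} (hz : z ∉ B) :
    ∃ h : {w | AGX A z w}.Finite, h.toFinset.card ≤ A.natDegree := by
  classical
  set Az : ℂ[X] := A.map (evalRingHom z) with hAz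
  have hne : Az ≠ 0 := by
    intro h0
    have h1 : Az.coeff A.natDegree = 0 := by rw [h0, Polynomial.coeff_zero]
    rw [hAz, Polynomial.coeff_map] at h1
    exact hC.lead z hz h1
  have hsub : {w | AGX A z w} ⊆ (Az.roots.toFinset : Set ℂ) := by
    intro w hw
    obtain ⟨ω, hs, -⟩ := hw
    rw [Finset.mem_coe, Multiset.mem_toFinset, Polynomial.mem_roots hne]
    show Az.eval w = 0
    rw [hAz, Polynomial.map_evalRingHom_eval]
    exact AGL_zero hs
  have hf : {w | AGX A z w}.Finite := (Finset.finite_toSet _).subset hsub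
  refine ⟨hf, ?_⟩
  have h1 : hf.toFinset ⊆ Az.roots.toFinset := by
    intro w hw
    exact hsub (hf.mem_toFinset.1 hw)
  calc hf.toFinset.card ≤ Az.roots.toFinset.card := Finset.card_le_card h1
    _ ≤ Multiset.card Az.roots := Multiset.toFinset_card_le _
    _ ≤ Az.natDegree := Polynomial.card_roots' _
    _ ≤ A.natDegree := Polynomial.natDegree_map_le

theorem agl_bound {A : ℂ[X][Y]} {B : Set ℂ} (hC : ACurve A B) {z : ℂ} (hz : z ∉ B) (c : ℂ)
    (C : ℝ) (h : ∀ w, AGX A z w → ‖AGL_mu A z w‖ ≤ C) :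
    ‖agl_P A c z‖ ≤ (1 + |C| + ‖c‖) ^ A.natDegree := by
  obtain ⟨hf, hcard⟩ := agl_card hC hz
  have hb : (1 : ℝ) ≤ 1 + |C| + ‖c‖ := by
    have := abs_nonneg C
    have := norm_nonneg c
    linarith
  unfold agl_P
  rw [finprod_mem_eq_finite_toFinset_prod _ hf, norm_prod]
  calc ∏ w ∈ hf.toFinset, ‖AGL_mu A z w - c‖ ≤ ∏ w ∈ hf.toFinset, (1 + |C| + ‖c‖) := by
        refine Finset.prod_le_prod (fun _ _ => norm_nonneg _) fun w hw => ?_
        have h1 := h w (hf.mem_toFinset.1 hw)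
        have h2 := norm_sub_le (AGL_mu A z w) c
        have h3 := le_abs_self C
        linarith
    _ = (1 + |C| + ‖c‖) ^ hf.toFinset.card := by rw [Finset.prod_const]
    _ ≤ _ := pow_le_pow_right₀ hb hcard

theorem agl_mu_bound {A : ℂ[X][Y]} {B : Set ℂ} (hC : ACurve A B) {z : ℂ}
    (hz : z ∉ B) (C : ℝ) (h : ∀ w, AGX A z w → ∀ ω, Sheet A ω z w →
      ‖Mi (fun x => x) ω z‖ ^ 3 ≤ C * ‖Wr (fun x => x) ω z‖ ^ 8) :
    ∀ w, AGX A z w → ‖AGL_mu A z w‖ ≤ C := by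
  intro w hw
  obtain ⟨ω, hs, -⟩ := id hw
  rw [AGL_mu_eq tALO hC hz hs]
  unfold AGL_R
  have hW := AGL_Wr_ne hC hz hs
  rw [norm_div, norm_pow, norm_pow, div_le_iff₀ (by positivity)]
  exact h w hw ω hs

theorem agl_const {A : ℂ[X][Y]} {B : Set ℂ} (hC : ACurve A B)
    (hS : SlowC A B) (c : ℂ) :
    ∃ k, ∀ z ∉ B, agl_P A c z = k := by
  refine tALI B (agl_P A c) hC.fin ?_ ?_ ?_
  · intro z1 hz1
    obtain ⟨r, n, ω, J, hr, hB, hs, -, hP⟩ := agl_local hC hz1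
    refine DifferentiableAt.differentiableWithinAt ?_
    have hev : agl_P A c =ᶠ[𝓝 z1] fun z => ∏ i ∈ J, (AGL_R (ω i) z - c) := by
      filter_upwards [Metric.ball_mem_nhds z1 hr] with z hz
      exact hP c z hz
    rw [hev.differentiableAt_iff]
    refine DifferentiableAt.fun_finsetProd fun i _ => ?_
    exact (AGL_R_an hC hz1 (hs i z1 (Metric.mem_ball_self hr))).differentiableAt.sub_const c
  · intro b hb
    have hfin : (B \ {b}).Finite := hC.fin.subset sdiff_subset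
    have hopen : IsOpen (B \ {b})ᶜ := hfin.isClosed.isOpen_compl
    obtain ⟨ε, hε, hball⟩ := Metric.isOpen_iff.1 hopen b (by simp)
    have hnB : ∀ z, 0 < ‖z - b‖ → ‖z - b‖ < ε → z ∉ B := by
      intro z h0 h1 hzB
      have h2 : z ∈ Metric.ball b ε := by rwa [Metric.mem_ball, dist_eq_norm]
      refine hball h2 ⟨hzB, ?_⟩
      intro h3
      rw [Set.mem_singleton_iff] at h3
      rw [h3, sub_self, norm_zero] at h0
      exact lt_irrefl _ h0
    obtain ⟨C, ε', hε', hbd⟩ := abd hC hS (fun t => b + t) ε hε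
      (analyticAt_const.add analyticAt_id).meromorphicAt (by fun_prop) (by
        intro t ht
        refine ⟨by simp, hnB _ ?_ ?_⟩
        · simpa using ht.1
        · have := ht.2
          rw [pow_one] at this
          simpa using this)
    refine ⟨(1 + |C| + ‖c‖) ^ A.natDegree, ?_⟩
    have hnear : ∀ᶠ z in 𝓝[≠] b, z ∈ Metric.ball b (min ε ε') :=
      nhdsWithin_le_nhds (Metric.ball_mem_nhds b (lt_min hε hε'))
    filter_upwards [hnear, self_mem_nhdsWithin] with z hz hzb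
    rw [Metric.mem_ball, dist_eq_norm, lt_min_iff] at hz
    have h0 : 0 < ‖z - b‖ := norm_pos_iff.2 (sub_ne_zero.2 hzb)
    have hzB := hnB z h0 hz.1
    refine agl_bound hC hzB c C (agl_mu_bound hC hzB C fun w hw ω hs => ?_)
    have e : b + (z - b) = z := by ring
    have := hbd (z - b) ⟨h0, by rw [pow_one]; exact hz.2⟩ w (by simp only [e]; exact hw) ω
      (by simp only [e]; exact hs)
    simpa only [e] using this
  · obtain ⟨R, hR⟩ := hC.fin.isBounded.exists_norm_le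
    have hR0 : 0 < |R| + 1 := by positivity
    have hnB : ∀ z, |R| + 1 < ‖z‖ → z ∉ B := by
      intro z hz hzB
      have h1 := hR z hzB
      have h2 := le_abs_self R
      linarith
    have hinv : ∀ (δ : ℝ) (z : ℂ), 0 < δ → 1 / δ < ‖z‖ → 0 < ‖z⁻¹‖ ∧ ‖z⁻¹‖ ^ 1 < δ := by
      intro δ z hδ hz
      have hz0 : 0 < ‖z‖ := lt_trans (by positivity) hz
      rw [norm_inv, pow_one]
      refine ⟨by positivity, ?_⟩
      rw [inv_lt_comm₀ hz0 hδ, inv_eq_one_div]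
      exact hz
    obtain ⟨C, ε', hε', hbd⟩ := abd hC hS (fun t => t⁻¹) (1 / (|R| + 1)) (by positivity)
      (by
        have : MeromorphicAt (fun t : ℂ => t) 0 := analyticAt_id.meromorphicAt
        exact this.inv) (by
        intro t ht
        have h0 : t ≠ 0 := norm_pos_iff.1 ht.1
        exact (differentiableAt_inv h0).differentiableWithinAt) (by
        intro t ht
        have h0 : t ≠ 0 := norm_pos_iff.1 ht.1
        refine ⟨?_, hnB _ ?_⟩
        · rw [deriv_inv]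
          simpa using h0
        · have h1 := ht.2
          rw [pow_one] at h1
          rw [norm_inv, lt_inv_comm₀ hR0 ht.1, inv_eq_one_div]
          exact h1)
    refine ⟨(1 + |C| + ‖c‖) ^ A.natDegree, max (|R| + 1) (1 / ε'), fun z hz => ?_⟩
    rw [max_lt_iff] at hz
    have hzB := hnB z hz.1
    refine agl_bound hC hzB c C (agl_mu_bound hC hzB C fun w hw ω hs => ?_)
    have e : (z⁻¹)⁻¹ = z := inv_inv z
    have := hbd z⁻¹ (hinv ε' z hε' hz.2) w (by simp only [e]; exact hw) ω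
      (by simp only [e]; exact hs)
    simpa only [e] using this

theorem agl {A : ℂ[X][Y]} {B : Set ℂ} (hC : ACurve A B) (hS : SlowC A B) (z0 : ℂ)
    (hz0 : z0 ∉ B) (w0 : ℂ) (ω0 : ℂ → ℂ) (hAG0 : AGX A z0 w0) (hs0 : Sheet A ω0 z0 w0) :
    ∃ m0 : ℂ, ∀ᶠ x in 𝓝 z0, Mi (fun x => x) ω0 x ^ 3 = m0 * Wr (fun x => x) ω0 x ^ 8 := by
  obtain ⟨r, n, ω, J, hr, hB, hs, hiff, hP⟩ := agl_local hC hz0
  have hz0b : z0 ∈ Metric.ball z0 r := Metric.mem_ball_self hr
  obtain ⟨i, hi, hiw⟩ := (hiff z0 hz0b w0).1 hAG0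
  have hsi : Sheet A (ω i) z0 w0 := by
    have := hs i z0 hz0b
    rwa [hiw] at this
  have hgerm : ω0 =ᶠ[𝓝 z0] ω i := AGL_uniq tALO hC hz0 hsi hs0
  -- the finite set of values at `z0`
  have hfin : (((fun j => AGL_R (ω j) z0) '' (J : Set (Fin n))) \ {AGL_R (ω i) z0}).Finite :=
    (J.finite_toSet.image _).subset sdiff_subset
  have hmem : ∀ x ∈ Metric.ball z0 r,
      AGL_R (ω i) x ∈ (fun j => AGL_R (ω j) z0) '' (J : Set (Fin n)) := by
    intro x hx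
    obtain ⟨k, hk⟩ := agl_const hC hS (AGL_R (ω i) x)
    have h1 : agl_P A (AGL_R (ω i) x) x = 0 := by
      rw [hP _ x hx]
      exact Finset.prod_eq_zero hi (sub_self _)
    have h2 : agl_P A (AGL_R (ω i) x) z0 = 0 := by
      rw [hk z0 hz0, ← hk x (hB hx), h1]
    rw [hP _ z0 hz0b, Finset.prod_eq_zero_iff] at h2
    obtain ⟨j, hj, hj0⟩ := h2
    exact ⟨j, hj, sub_eq_zero.1 hj0⟩
  have hcont : ContinuousAt (AGL_R (ω i)) z0 := (AGL_R_an hC hz0 hsi).continuousAt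
  have hev : ∀ᶠ x in 𝓝 z0, AGL_R (ω i) x ∈
      (((fun j => AGL_R (ω j) z0) '' (J : Set (Fin n))) \ {AGL_R (ω i) z0})ᶜ :=
    hcont.eventually_mem (hfin.isClosed.isOpen_compl.mem_nhds (by simp))
  refine ⟨AGL_R (ω i) z0, ?_⟩
  filter_upwards [hev, Metric.ball_mem_nhds z0 hr, hgerm.eventuallyEq_nhds] with x h1 h2 h3
  have h4 : AGL_R (ω i) x = AGL_R (ω i) z0 := by
    by_contra hc
    exact h1 ⟨hmem x h2, hc⟩
  rw [(AGL_germ h3).1, (AGL_germ h3).2, ← h4]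
  unfold AGL_R
  have hW := AGL_Wr_ne hC (hB h2) (hs i x h2)
  field_simp


end Pool.Agent.V5helper83.OA
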