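import Pool.Agent.H719R4.FX.Fin4
import Pool.Agent.H719R4.FX.GRP
import Pool.Agent.H719R4.FX.PCL
import Pool.Agent.H719R4.FX.PPB
import Pool.Agent.H719R4.FX.PPI
import Pool.Agent.H719R4.FZ.AMI

/-! Outer billiards: good points in both coordinates, and the places of a curve. -/

open Complex Set Filter Topology

namespace Pool.Agent.V5helper83.OA

open H719FX H738CZ

/-- good point for the outer billiard in the coordinates `x` and `y` -/
def GX (X Y : ℂ → ℂ) (t : ℂ) : Prop := GoodO X Y t ∧ GoodO Y X t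

theorem Wr_congr {Z W Z' W' : ℂ → ℂ} {t : ℂ} (hZ : Z =ᶠ[𝓝 t] Z') (hW : W =ᶠ[𝓝 t] W') :
    Wr Z W =ᶠ[𝓝 t] Wr Z' W' := by
  filter_upwards [hZ.deriv, hW.deriv, hZ.deriv.deriv, hW.deriv.deriv] with s h1 h2 h3 h4
  unfold Wr
  rw [h1, h2, h3, h4]

theorem Mi_congr {Z W Z' W' : ℂ → ℂ} {t : ℂ} (hZ : Z =ᶠ[𝓝 t] Z') (hW : W =ᶠ[𝓝 t] W') :
    Mi Z W t = Mi Z' W' t := by
  have h0 := Wr_congr hZ hW
  unfold Mi
  rw [h0.eq_of_nhds, h0.deriv.eq_of_nhds, h0.deriv.deriv.eq_of_nhds,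
    hZ.deriv.deriv.eq_of_nhds, hW.deriv.deriv.eq_of_nhds, hZ.deriv.deriv.deriv.eq_of_nhds,
    hW.deriv.deriv.deriv.eq_of_nhds]

theorem Wr_swap (Z W : ℂ → ℂ) : Wr W Z = -(Wr Z W) := by
  funext t
  simp only [Pi.neg_apply]
  unfold Wr
  ring

theorem Mi_swap (Z W : ℂ → ℂ) (t : ℂ) : Mi W Z t = Mi Z W t := by
  unfold Mi
  rw [Wr_swap Z W]
  have h1 : deriv (-(Wr Z W)) = -(deriv (Wr Z W)) := by
    funext s
    simp [deriv.neg]
  rw [h1]
  have h2 : deriv (-(deriv (Wr Z W))) = -(deriv (deriv (Wr Z W))) := by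
    funext s
    simp [deriv.neg]
  rw [h2]
  simp only [Pi.neg_apply]
  ring

theorem GoodO_congr {X Y X' Y' : ℂ → ℂ} {t : ℂ} (h : GoodO X Y t) (hX : X =ᶠ[𝓝 t] X')
    (hY : Y =ᶠ[𝓝 t] Y') : GoodO X' Y' t := by
  obtain ⟨h1, h2, ρ, h3, h4, h5⟩ := h
  have e1 : X t = X' t := hX.eq_of_nhds
  refine ⟨by rw [← hX.deriv.eq_of_nhds]; exact h1, by rw [← (Wr_congr hX hY).eq_of_nhds]; exact h2,
    ρ, by rw [← e1]; exact h3, ?_, by rw [← e1]; exact h5⟩
  filter_upwards [h4, hX, hX.deriv, Wr_congr hX hY] with s a1 a2 a3 a4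
  rw [← a2, ← a3, ← a4]
  exact a1

theorem GX_congr {X Y X' Y' : ℂ → ℂ} {t : ℂ} (h : GX X Y t) (hX : X =ᶠ[𝓝 t] X')
    (hY : Y =ᶠ[𝓝 t] Y') : GX X' Y' t :=
  ⟨GoodO_congr h.1 hX hY, GoodO_congr h.2 hY hX⟩

theorem GX_swap {X Y : ℂ → ℂ} {t : ℂ} (h : GX X Y t) : GX Y X t := ⟨h.2, h.1⟩

theorem GX_reg {X Y : ℂ → ℂ} {t : ℂ} (h : GX X Y t) :
    deriv X t ≠ 0 ∧ deriv Y t ≠ 0 ∧ Wr X Y t ≠ 0 := ⟨h.1.1, h.2.1, h.1.2.1⟩

/-- reparametrisation -/
theorem GoodO_comp {X Y E : ℂ → ℂ} {s : ℂ} (hE : AnalyticAt ℂ E s) (hE1 : deriv E s ≠ 0)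
    (hX : AnalyticAt ℂ X (E s)) (hY : AnalyticAt ℂ Y (E s)) (h : GoodO X Y (E s)) :
    GoodO (fun x => X (E x)) (fun x => Y (E x)) s := by
  refine tOTP _ _ X Y E s (hX.comp hE) (hY.comp hE) hE hE1 hX hY ?_ h
  filter_upwards [hE.eventually_analyticAt,
    hE.continuousAt.eventually hX.eventually_analyticAt,
    hE.continuousAt.eventually hY.eventually_analyticAt] with x h1 h2 h3
  exact ⟨(HasDerivAt.comp x h2.differentiableAt.hasDerivAt h1.differentiableAt.hasDerivAt).deriv,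
    (HasDerivAt.comp x h3.differentiableAt.hasDerivAt h1.differentiableAt.hasDerivAt).deriv⟩

theorem GoodO_comp' {X Y E : ℂ → ℂ} {s : ℂ} (hE : AnalyticAt ℂ E s) (hE1 : deriv E s ≠ 0)
    (hX : AnalyticAt ℂ X (E s)) (hY : AnalyticAt ℂ Y (E s))
    (h : GoodO (fun x => X (E x)) (fun x => Y (E x)) s) : GoodO X Y (E s) := by
  set e := hE.hasStrictDerivAt.localInverse _ _ _ hE1 with hedef
  have he : AnalyticAt ℂ e (E s) := hE.analyticAt_localInverse hE1
  have hes : e (E s) = s := HasStrictFDerivAt.localInverse_apply_image ..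
  have hEe : ∀ᶠ y in 𝓝 (E s), E (e y) = y :=
    HasStrictDerivAt.eventually_right_inverse hE.hasStrictDerivAt hE1
  have hne : deriv e (E s) ≠ 0 := by
    have h7 : HasDerivAt (fun z => E (e z)) (deriv E s * deriv e (E s)) (E s) := by
      have h6 : HasDerivAt E (deriv E s) (e (E s)) := by
        rw [hes]; exact hE.differentiableAt.hasDerivAt
      exact h6.comp (E s) he.differentiableAt.hasDerivAt
    have h8 : HasDerivAt (fun z : ℂ => z) (deriv E s * deriv e (E s)) (E s) :=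
      h7.congr_of_eventuallyEq (by filter_upwards [hEe] with z hz; exact hz.symm)
    have h9 := h8.unique (hasDerivAt_id (E s))
    intro h0
    rw [h0, mul_zero] at h9
    exact zero_ne_one h9
  refine tOTP X Y (fun x => X (E x)) (fun x => Y (E x)) e (E s) hX hY he hne ?_ ?_ ?_ ?_
  · rw [hes]; exact hX.comp hE
  · rw [hes]; exact hY.comp hE
  · filter_upwards [GRP_aux E e X s hE he hes hEe hX, GRP_aux E e Y s hE he hes hEe hY]
      with y h1 h2
    exact ⟨h1, h2⟩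
  · rw [hes]; exact h

theorem GX_comp {X Y E : ℂ → ℂ} {s : ℂ} (hE : AnalyticAt ℂ E s) (hE1 : deriv E s ≠ 0)
    (hX : AnalyticAt ℂ X (E s)) (hY : AnalyticAt ℂ Y (E s)) :
    GX (fun x => X (E x)) (fun x => Y (E x)) s ↔ GX X Y (E s) :=
  ⟨fun h => ⟨GoodO_comp' hE hE1 hX hY h.1, GoodO_comp' hE hE1 hY hX h.2⟩,
    fun h => ⟨GoodO_comp hE hE1 hX hY h.1, GoodO_comp hE hE1 hY hX h.2⟩⟩

theorem fin_osg : StOSG := by
  obtain ⟨-, -, -, -, -, -, -, -, hTRL, hDSC⟩ := cz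
  exact tOSG hTRL hDSC

theorem GX_seg {X Y : ℂ → ℂ} {U : Set ℂ} {a b : ℂ} (hU : IsOpen U) (hX : DifferentiableOn ℂ X U)
    (hY : DifferentiableOn ℂ Y U) (h : ∀ t ∈ U, deriv X t ≠ 0 ∧ deriv Y t ≠ 0 ∧ Wr X Y t ≠ 0)
    (hab : segment ℝ a b ⊆ U) (ha : GX X Y a) : GX X Y b := by
  refine ⟨fin_osg X Y U a b hU hX hY (fun t ht => ⟨(h t ht).1, (h t ht).2.2⟩) hab ha.1,
    fin_osg Y X U a b hU hY hX (fun t ht => ⟨(h t ht).2.1, ?_⟩) hab ha.2⟩
  rw [Wr_swap]
  simpa using (h t ht).2.2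

/-- an analytic function whose derivative has a zero of order `n` at `t0` -/
theorem asym {L : ℂ → ℂ} {t0 : ℂ} (hL : MeromorphicAt L t0) (n : ℕ) (h : ℂ → ℂ)
    (hh : AnalyticAt ℂ h t0) (h0 : h t0 ≠ 0)
    (hd : ∀ᶠ t in 𝓝[≠] t0, deriv L t = (t - t0) ^ n * h t) :
    ∃ (δ : ℂ) (g : ℂ → ℂ), AnalyticAt ℂ g t0 ∧ g t0 ≠ 0 ∧
      ∀ᶠ t in 𝓝[≠] t0, L t - δ = (t - t0) ^ (n + 1) * g t := by
  -- a primitive of the right-hand side
  have hF : AnalyticAt ℂ (fun t => (t - t0) ^ n * h t) t0 := by fun_prop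
  obtain ⟨r, hr, hb⟩ := Metric.eventually_nhds_iff_ball.1 hF.eventually_analyticAt
  have hFd : DifferentiableOn ℂ (fun t => (t - t0) ^ n * h t) (Metric.ball t0 r) :=
    fun t ht => (hb t ht).differentiableAt.differentiableWithinAt
  obtain ⟨P, hP⟩ := hFd.isExactOn_ball
  have hPa : AnalyticAt ℂ P t0 :=
    (show DifferentiableOn ℂ P (Metric.ball t0 r) from
      fun t ht => (hP t ht).differentiableAt.differentiableWithinAt).analyticAt
      (Metric.ball_mem_nhds t0 hr)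
  have hPd : ∀ᶠ t in 𝓝 t0, deriv P t = (t - t0) ^ n * h t := by
    filter_upwards [Metric.ball_mem_nhds t0 hr] with t ht
    exact (hP t ht).deriv
  -- the difference is constant
  have hLm : MeromorphicAt (fun t => L t - P t) t0 := hL.sub hPa.meromorphicAt
  have hLd : ∀ᶠ t in 𝓝[≠] t0, deriv (fun t => L t - P t) t = 0 := by
    filter_upwards [hd, hPd.filter_mono nhdsWithin_le_nhds, hL.eventually_analyticAt,
      hPa.eventually_analyticAt.filter_mono nhdsWithin_le_nhds] with t h1 h2 h3 h4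
    have := (h3.differentiableAt.hasDerivAt.sub h4.differentiableAt.hasDerivAt).deriv
    have e : deriv (fun t => L t - P t) t = deriv L t - deriv P t := this
    rw [e, h1, h2, sub_self]
  obtain ⟨c, hc⟩ : ∃ c : ℂ, ∀ᶠ t in 𝓝[≠] t0, L t - P t = c := by
    have h1 : ∀ᶠ t in 𝓝[≠] t0, deriv (fun t => L t - P t) t = 0 ∧
        AnalyticAt ℂ (fun t => L t - P t) t := hLd.and hLm.eventually_analyticAt
    rw [eventually_nhdsWithin_iff] at h1
    obtain ⟨ε, hε, hb⟩ := Metric.eventually_nhds_iff_ball.1 h1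
    have hopen : IsOpen (Metric.ball t0 ε \ {t0}) := Metric.isOpen_ball.sdiff isClosed_singleton
    have hconn : IsPreconnected (Metric.ball t0 ε \ {t0}) := by
      have h2 := (tV3C ε).image (fun z => z + t0) (by fun_prop)
      have h3 : (fun z => z + t0) '' (V3 ε) = Metric.ball t0 ε \ {t0} := by
        ext z
        constructor
        · rintro ⟨w, ⟨hw1, hw2⟩, rfl⟩
          refine ⟨?_, ?_⟩
          · simpa [dist_eq_norm] using hw1
          · simpa using hw2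
        · rintro ⟨hz1, hz2⟩
          refine ⟨z - t0, ⟨?_, ?_⟩, by ring⟩
          · simpa [dist_eq_norm] using hz1
          · simpa [sub_eq_zero] using hz2
      rwa [h3] at h2
    obtain ⟨c, hc⟩ : ∃ c, ∀ t ∈ Metric.ball t0 ε \ {t0}, L t - P t = c := by
      refine hopen.exists_is_const_of_deriv_eq_zero hconn ?_ ?_
      · intro t ht
        exact (hb t ht.1 ht.2).2.differentiableAt.differentiableWithinAt
      · intro t ht
        exact (hb t ht.1 ht.2).1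
    refine ⟨c, ?_⟩
    rw [eventually_nhdsWithin_iff]
    filter_upwards [Metric.ball_mem_nhds t0 hε] with t h1 h2
    exact hc t ⟨h1, h2⟩
  -- the order of `P - P t0`
  have hQa : AnalyticAt ℂ (fun t => P t - P t0) t0 := hPa.sub analyticAt_const
  have hord : analyticOrderAt (fun t => P t - P t0) t0 = ((n + 1 : ℕ) : ℕ∞) := by
    have h1 : analyticOrderAt (deriv P) t0 = (n : ℕ∞) := by
      rw [hPa.deriv.analyticOrderAt_eq_natCast]
      refine ⟨h, hh, h0, ?_⟩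
      filter_upwards [hPd] with t ht
      rw [ht, smul_eq_mul]
    have h2 := hPa.analyticOrderAt_deriv_add_one
    rw [h1] at h2
    rw [← h2]
    push_cast
    rfl
  obtain ⟨g, hg, hg0, he⟩ := hQa.analyticOrderAt_eq_natCast.1 hord
  refine ⟨P t0 + c, g, hg, hg0, ?_⟩
  filter_upwards [hc, he.filter_mono nhdsWithin_le_nhds] with t h1 h2
  rw [smul_eq_mul] at h2
  rw [← h2, ← h1]
  ring

end Pool.Agent.V5helper83.OA
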