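import Pool.Agent.V5helper83.OA.Start
import Pool.Agent.V5helper83.OA.ABX
import Pool.Agent.V5helper83.OA.Sub
import Pool.Agent.H719R4.FZ.AS2
import Pool.Agent.H719R4.FX.AFL
import Pool.Agent.H719R4.FZ.AFR
import Pool.Agent.H719R4.FX.CQU
import Pool.Agent.H719R4.FX.CEL
import Pool.Agent.W743.BE.OutFin

/-! Outer billiards about algebraic ovals without fast asymptotes: assembly (adapted from AAY). -/

open Complex Set Filter Topology Polynomial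

open scoped Polynomial.Bivariate ContDiff

namespace Pool.Agent.V5helper83.OA

open H719FX H738CZ

/-- the complex curve `A(x, y) = 0` has no fast asymptote -/
def NoFast (A : ℂ[X][Y]) : Prop := ∀ α β δ : ℂ, (α ≠ 0 ∨ β ≠ 0) → ∃ c > 0, ∃ R : ℝ,
  ∀ x y : ℂ, A.evalEval x y = 0 → α * x + β * y ≠ δ → R < ‖x‖ + ‖y‖ →
    c ≤ (‖x‖ + ‖y‖) * ‖α * x + β * y - δ‖

theorem slowC {A A' : ℂ[X][Y]} {B : Set ℂ} (hNF : NoFast A)
    (h : ∀ z ∉ B, ∀ w, A'.evalEval z w = 0 → A.evalEval z w = 0) : SlowC A' B := by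
  intro Z W _ _ hev α β δ hab hne htop hzero
  obtain ⟨c, hc, R, hR⟩ := hNF α β δ hab
  have h1 : ∀ᶠ t in 𝓝[≠] (0 : ℂ), c ≤ (‖Z t‖ + ‖W t‖) * ‖α * Z t + β * W t - δ‖ := by
    filter_upwards [hev, hne, htop.eventually_gt_atTop R] with t h1 h2 h3
    exact hR (Z t) (W t) (h _ h1.1 _ h1.2) h2 h3
  have h2 : ∀ᶠ t in 𝓝[≠] (0 : ℂ), (‖Z t‖ + ‖W t‖) * ‖α * Z t + β * W t - δ‖ < c :=
    (tendsto_order.1 hzero).2 c hc
  obtain ⟨t, h3, h4⟩ := (h1.and h2).exists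
  exact absurd h3 (not_le.2 h4)

theorem re_im (z : ℂ) : (z + (starRingEnd ℂ) z) / 2 = (z.re : ℂ) ∧
    -I * (z - (starRingEnd ℂ) z) / 2 = (z.im : ℂ) := by
  constructor
  · rw [Complex.add_conj]
    push_cast
    ring
  · rw [Complex.sub_conj]
    push_cast
    linear_combination (-(z.im : ℂ)) * I_sq

theorem main_conic {γ : ℝ → ℂ} {ρ : ℝ → ℝ} (hOv : IsOval γ ρ) {K : ℝ → ℝ → ℝ} {U : Set (ℝ × ℝ)}
    (hK : OInt γ K U) (hsm : ContDiff ℝ ∞ γ) {A : ℂ[X][Y]} (hA0 : A ≠ 0)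
    (hA : ∀ s : ℝ, A.evalEval ((γ s).re : ℂ) ((γ s).im : ℂ) = 0) (hNF : NoFast A) :
    ∃ (c : ℂ) (a b d : ℝ), 0 < a ∧ 0 < a * d - b ^ 2 ∧
      Set.range γ = {x : ℂ | a * (x.re - c.re) ^ 2 + 2 * b * (x.re - c.re) * (x.im - c.im)
        + d * (x.im - c.im) ^ 2 = 1} := by
  have hsA : ∀ s : ℝ, (sb A).evalEval (γ s) ((starRingEnd ℂ) (γ s)) = 0 := by
    intro s
    rw [sb_eval, (re_im _).1, (re_im _).2]
    exact hA s
  obtain ⟨s0, hs0⟩ := tAS2 γ ρ hOv (sb A) (sb_ne hA0) hsA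
  obtain ⟨F, H, r, v, hr, hXd, hYd, hXY, hv, hG⟩ := start hOv hK hs0
  have hopen : IsOpen (Metric.ball (s0 : ℂ) r) := Metric.isOpen_ball
  -- the algebraic relation on the ball
  have hAXY : ∀ t ∈ Metric.ball (s0 : ℂ) r, A.evalEval (F t) (H t) = 0 :=
    ident hr (AAY_diff A hXd hYd) fun t ht => by
      show A.evalEval (F t) (H t) = 0
      rw [(hXY t ht).1, (hXY t ht).2]
      exact hA t
  have hXa : AnalyticAt ℂ F v := hXd.analyticAt (hopen.mem_nhds hv)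
  have hYa : AnalyticAt ℂ H v := hYd.analyticAt (hopen.mem_nhds hv)
  obtain ⟨g1, g2, g3⟩ := GX_reg hG
  have hWrc : ContinuousAt (Wr F H) v := by
    have c1 := hXa.deriv.continuousAt
    have c2 := hYa.deriv.continuousAt
    have c3 := hXa.deriv.deriv.continuousAt
    have c4 := hYa.deriv.deriv.continuousAt
    unfold Wr
    fun_prop
  have hev0 : ∀ᶠ t in 𝓝 (v : ℂ), t ∈ Metric.ball (s0 : ℂ) r := hopen.mem_nhds hv
  obtain ⟨r1, hr1, hb1⟩ := Metric.eventually_nhds_iff_ball.1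
    (hev0.and
      ((hXa.deriv.continuousAt.eventually_ne g1).and
        ((hYa.deriv.continuousAt.eventually_ne g2).and (hWrc.eventually_ne g3))))
  have hsub : Metric.ball (v : ℂ) r1 ⊆ Metric.ball (s0 : ℂ) r := fun t ht => (hb1 t ht).1
  have hreg : ∀ t ∈ Metric.ball (v : ℂ) r1, deriv F t ≠ 0 ∧ deriv H t ≠ 0 ∧ Wr F H t ≠ 0 :=
    fun t ht => (hb1 t ht).2
  have hXd1 := hXd.mono hsub
  have hYd1 := hYd.mono hsub
  have hopen1 : IsOpen (Metric.ball (v : ℂ) r1) := Metric.isOpen_ball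
  have hvr : (v : ℂ) ∈ Metric.ball (v : ℂ) r1 := Metric.mem_ball_self hr1
  obtain ⟨A', B, hAC, hA', hAA⟩ := abx A hA0 F H v r1 hr1 hXd1 hYd1 fun t ht =>
    ⟨(hreg t ht).1, (hreg t ht).2.1, (hreg t ht).2.2, hAXY t (hsub ht)⟩
  have hS : SlowC A' B := slowC hNF hAA
  -- a real point with `F t0 ∉ B`
  have hev : ∀ᶠ z in 𝓝[≠] (v : ℂ), F z ∉ B := by
    have h1 : ∀ b ∈ B, ∀ᶠ z in 𝓝[≠] (v : ℂ), F z ≠ b := by
      intro b _
      rcases hXa.eventually_eq_or_eventually_ne (analyticAt_const (v := b)) with h | h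
      · exfalso
        have h2 : F =ᶠ[𝓝 (v : ℂ)] fun _ => b := h
        have h3 := h2.deriv_eq
        rw [deriv_const] at h3
        exact (hreg v hvr).1 h3
      · exact h
    have h2 := (Filter.eventually_all_finite hAC.fin).2 h1
    filter_upwards [h2] with z hz hzB
    exact hz _ hzB rfl
  have hballR : ∀ᶠ t : ℝ in 𝓝 v, (t : ℂ) ∈ Metric.ball (v : ℂ) r1 :=
    Complex.continuous_ofReal.continuousAt.preimage_mem_nhds (hopen1.mem_nhds hvr)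
  obtain ⟨t0, ht0B, ht0r⟩ : ∃ t0 : ℝ, F t0 ∉ B ∧ (t0 : ℂ) ∈ Metric.ball (v : ℂ) r1 :=
    (((AAY_tend v).eventually hev).and (hballR.filter_mono nhdsWithin_le_nhds)).exists
  have hG0 : GX F H t0 := GX_seg hopen1 hXd1 hYd1 hreg
    ((convex_ball (v : ℂ) r1).segment_subset hvr ht0r) hG
  have hXt : AnalyticAt ℂ F t0 := hXd1.analyticAt (hopen1.mem_nhds ht0r)
  have hYt : AnalyticAt ℂ H t0 := hYd1.analyticAt (hopen1.mem_nhds ht0r)
  -- the local sheet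
  obtain ⟨⟨g, hg⟩, huni⟩ := tALO A' B hAC (F t0) ht0B (H t0) (hA' t0 ht0r)
  have hgH : ∀ᶠ t in 𝓝 (t0 : ℂ), H t = g (F t) := by
    have h1 : Tendsto (fun t => (F t, H t)) (𝓝 (t0 : ℂ)) (𝓝 (F t0, H t0)) :=
      (hXt.continuousAt.prodMk hYt.continuousAt).tendsto
    filter_upwards [h1.eventually (huni g hg), hopen1.mem_nhds ht0r] with t h2 h3
    exact h2 (hA' t h3)
  have hG1 : GX F (fun s => g (F s)) t0 := GX_congr hG0 (EventuallyEq.refl _ _) hgH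
  have hAG : AGX A' (F t0) (H t0) :=
    ⟨g, hg, (@GX_comp (fun x => x) g F t0 hXt (hreg t0 ht0r).1 analyticAt_id hg.1).1 hG1⟩
  obtain ⟨m0, hm0⟩ := agl hAC hS (F t0) ht0B (H t0) g hAG hg
  have hflex := hAC.flex (F t0) ht0B g hg.1 hg.2.2
  have hga : ∀ᶠ z in 𝓝 (F t0), AnalyticAt ℂ g z := hg.1.eventually_analyticAt
  have hWrne : ∀ᶠ z in 𝓝 (F t0), Wr (fun x => x) g z ≠ 0 := by
    have h1 : ContinuousAt (deriv (deriv g)) (F t0) := hg.1.deriv.deriv.continuousAt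
    filter_upwards [h1.eventually_ne hflex.2] with z hz
    rw [AAY_Wr]
    exact hz
  obtain ⟨r', hr', hball'⟩ := Metric.eventually_nhds_iff_ball.1 (hga.and (hWrne.and hm0))
  obtain ⟨q0, q1, q2, q3, q4, q5, hq, hqe⟩ := tCQU (fun x => x) g (F t0) m0 r' hr'
    differentiableOn_id (fun z hz => (hball' z hz).1.differentiableAt.differentiableWithinAt)
    fun z hz => (hball' z hz).2
  -- back to the oval
  have hreal : ∀ᶠ t : ℝ in 𝓝 t0, q0 * ((γ t).re : ℂ) ^ 2 + q1 * (γ t).re * (γ t).im +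
      q2 * ((γ t).im : ℂ) ^ 2 + q3 * (γ t).re + q4 * (γ t).im + q5 = 0 := by
    have h1 : ∀ᶠ t : ℝ in 𝓝 t0, (t : ℂ) ∈ Metric.ball (v : ℂ) r1 :=
      Complex.continuous_ofReal.continuousAt.preimage_mem_nhds (hopen1.mem_nhds ht0r)
    have hback : ∀ᶠ t in 𝓝 (t0 : ℂ), q0 * F t ^ 2 + q1 * F t * H t + q2 * H t ^ 2 + q3 * F t +
        q4 * H t + q5 = 0 := by
      filter_upwards [hXt.continuousAt.eventually hqe, hgH] with t h1 h2
      rw [h2]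
      exact h1
    filter_upwards [Complex.continuous_ofReal.continuousAt.eventually hback, h1] with t h2 h3
    rw [(hXY t (hsub h3)).1, (hXY t (hsub h3)).2] at h2
    exact h2
  set P : ℂ[X][Y] := C (C q0 * Polynomial.X ^ 2 + C q3 * Polynomial.X + C q5) +
    C (C q1 * Polynomial.X + C q4) * Polynomial.X + C (C q2) * Polynomial.X ^ 2 with hP
  have hall := tAFL tAFR γ ρ hOv hsm (sb A) (sb_ne hA0) hsA (sb P) ⟨t0, by
      filter_upwards [hreal] with t ht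
      rw [sb_eval, hP, AAY_ev, (re_im _).1, (re_im _).2]
      exact ht⟩
  refine tCEL γ ρ hOv (q0 / 4 - I * q1 / 4 - q2 / 4) (q0 / 2 + q2 / 2)
    (q0 / 4 + I * q1 / 4 - q2 / 4) (q3 / 2 - I * q4 / 2) (q3 / 2 + I * q4 / 2) q5 ?_ fun φ => ?_
  · rintro ⟨e0, e1, e2, e3, e4, e5⟩
    apply hq
    have a1 : q0 = 0 := by linear_combination e0 + e2 + e1
    have a2 : q2 = 0 := by linear_combination e1 - e0 - e2
    have a3 : q1 = 0 := by
      linear_combination (2 * I) * (e0 - e2) + (q1 : ℂ) * I_sq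
    have a4 : q3 = 0 := by linear_combination e3 + e4
    have a5 : q4 = 0 := by linear_combination I * (e3 - e4) + (q4 : ℂ) * I_sq
    exact ⟨a1, a3, a2, a4, a5, e5⟩
  · have h := hall φ
    rw [sb_eval, hP, AAY_ev] at h
    linear_combination h - (q2 * (γ φ - (starRingEnd ℂ) (γ φ)) ^ 2 / 4) * I_sq

/-- Outer billiards about algebraic ovals without fast asymptotes. -/
theorem main {γ : ℝ → ℂ} {ρ : ℝ → ℝ} (hOv : IsOval γ ρ) {K : ℝ → ℝ → ℝ} {U : Set (ℝ × ℝ)}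
    (hK : OInt γ K U) (hsm : ContDiff ℝ ∞ γ) {A : ℂ[X][Y]} (hA0 : A ≠ 0)
    (hA : ∀ s : ℝ, A.evalEval ((γ s).re : ℂ) ((γ s).im : ℂ) = 0) (hNF : NoFast A) :
    ∃ (c : ℂ) (a b d : ℝ), 0 < a ∧ 0 < a * d - b ^ 2 ∧
      Set.range γ = {x : ℂ | a * (x.re - c.re) ^ 2 + 2 * b * (x.re - c.re) * (x.im - c.im)
        + d * (x.im - c.im) ^ 2 = 1} ∧
      ∃ η > 0, ∀ l : ℝ, 1 ≤ l → l < 1 + η → ∃ κ : ℝ, ∀ x y : ℝ,
        a * (x - c.re) ^ 2 + 2 * b * (x - c.re) * (y - c.im) + d * (y - c.im) ^ 2 = l →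
          (x, y) ∈ U ∧ K x y = κ := by
  obtain ⟨c, a, b, d, ha, hdet, hr⟩ := main_conic hOv hK hsm hA0 hA hNF
  exact ⟨c, a, b, d, ha, hdet, hr, Pool.Agent.W743.BE.ellipse_leaves hOv hK ha hdet hr⟩

end Pool.Agent.V5helper83.OA
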