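import Pool.Agent.V5helper83.OA.Good

/-! Places of a curve -/

open Complex Set Filter Topology

namespace Pool.Agent.V5helper83.OA

open H719FX H738CZ

theorem pole {X : ℂ → ℂ} {t0 : ℂ} {a : ℕ} (ha : 1 ≤ a) (hX : MeromorphicAt X t0) {f : ℂ → ℂ}
    (hf : AnalyticAt ℂ f t0) (hf0 : f t0 ≠ 0)
    (hd : ∀ᶠ t in 𝓝[≠] t0, deriv X t = (t - t0) ^ (-((a : ℤ) + 1)) * f t) :
    ∃ g : ℂ → ℂ, AnalyticAt ℂ g t0 ∧ g t0 ≠ 0 ∧
      ∀ᶠ t in 𝓝[≠] t0, X t = (t - t0) ^ (-(a : ℤ)) * g t := by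
  have hdm : meromorphicOrderAt (deriv X) t0 = ((-((a : ℤ) + 1) : ℤ) : WithTop ℤ) := by
    rw [meromorphicOrderAt_eq_int_iff hX.deriv]
    exact ⟨f, hf, hf0, by simpa only [smul_eq_mul] using hd⟩
  by_cases htop : meromorphicOrderAt X t0 = ⊤
  · exfalso
    rw [meromorphicOrderAt_eq_top_iff] at htop
    have h1 : X =ᶠ[𝓝[≠] t0] fun _ => (0 : ℂ) := htop
    have h2 := h1.nhdsNE_deriv
    have h3 : meromorphicOrderAt (deriv X) t0 = ⊤ := by
      rw [meromorphicOrderAt_eq_top_iff]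
      filter_upwards [h2] with t ht
      rw [ht]
      simp
    rw [h3] at hdm
    exact WithTop.top_ne_coe hdm
  · obtain ⟨m, hm⟩ := WithTop.ne_top_iff_exists.mp htop
    by_cases hm0 : m = 0
    · exfalso
      subst hm0
      obtain ⟨g, hga, hg0, hgZ⟩ := (meromorphicOrderAt_eq_int_iff hX).1 hm.symm
      have h1 : X =ᶠ[𝓝[≠] t0] g := by
        filter_upwards [hgZ] with t ht
        rw [ht]
        simp
      have h2 := h1.nhdsNE_deriv
      rw [meromorphicOrderAt_congr h2] at hdm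
      have h3 := hga.deriv.meromorphicOrderAt_nonneg
      rw [hdm] at h3
      have h4 : (0 : ℤ) ≤ -((a : ℤ) + 1) := by exact_mod_cast h3
      omega
    · have h1 := meromorphicOrderAt_deriv_eq_sub_one (f := X) (x := t0) (n := m)
        (by exact_mod_cast hm0) hm.symm
      rw [hdm] at h1
      have h2 : -((a : ℤ) + 1) = m - 1 := by exact_mod_cast h1
      have h3 : m = -(a : ℤ) := by omega
      subst h3
      obtain ⟨g, hga, hg0, hgZ⟩ := (meromorphicOrderAt_eq_int_iff hX).1 hm.symm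
      exact ⟨g, hga, hg0, by simpa only [smul_eq_mul] using hgZ⟩

/-- the curve has no fast asymptote at the place -/
def Slow (X Y : ℂ → ℂ) (t0 : ℂ) : Prop := ∀ α β δ : ℂ, (α ≠ 0 ∨ β ≠ 0) →
  (∀ᶠ t in 𝓝[≠] t0, α * X t + β * Y t ≠ δ) →
  Tendsto (fun t => ‖X t‖ + ‖Y t‖) (𝓝[≠] t0) atTop →
  ¬ Tendsto (fun t => (‖X t‖ + ‖Y t‖) * ‖α * X t + β * Y t - δ‖) (𝓝[≠] t0) (𝓝 0)

theorem fast {X Y L : ℂ → ℂ} {t0 : ℂ} {a e : ℕ} (hae : a < e) {gx gy gl : ℂ → ℂ}
    (cx : ContinuousAt gx t0) (cy : ContinuousAt gy t0) (cl : ContinuousAt gl t0)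
    (hX : ∀ᶠ t in 𝓝[≠] t0, X t = (t - t0) ^ (-(a : ℤ)) * gx t)
    (hY : ∀ᶠ t in 𝓝[≠] t0, Y t = (t - t0) ^ (-(a : ℤ)) * gy t)
    (hL : ∀ᶠ t in 𝓝[≠] t0, L t = (t - t0) ^ e * gl t) :
    Tendsto (fun t => (‖X t‖ + ‖Y t‖) * ‖L t‖) (𝓝[≠] t0) (𝓝 0) := by
  have h1 : Tendsto (fun t => ‖t - t0‖ ^ (e - a) * ((‖gx t‖ + ‖gy t‖) * ‖gl t‖)) (𝓝 t0)
      (𝓝 (‖t0 - t0‖ ^ (e - a) * ((‖gx t0‖ + ‖gy t0‖) * ‖gl t0‖))) := by
    have c1 : ContinuousAt (fun t : ℂ => ‖t - t0‖ ^ (e - a)) t0 := by fun_prop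
    exact (c1.mul ((cx.norm.add cy.norm).mul cl.norm)).tendsto
  rw [sub_self, norm_zero, zero_pow (by omega), zero_mul] at h1
  refine (h1.mono_left nhdsWithin_le_nhds).congr' ?_
  filter_upwards [hX, hY, hL, self_mem_nhdsWithin] with t e1 e2 e3 e4
  have hn : ‖t - t0‖ ≠ 0 := norm_ne_zero_iff.2 (sub_ne_zero.2 e4)
  rw [e1, e2, e3, norm_mul, norm_mul, norm_mul, norm_zpow, norm_pow, zpow_neg, zpow_natCast,
    pow_sub₀ _ hn hae.le]
  ring

theorem atTop_of_pole {X : ℂ → ℂ} {t0 : ℂ} {a : ℕ} (ha : 1 ≤ a) (hX : MeromorphicAt X t0)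
    {g : ℂ → ℂ} (hg : AnalyticAt ℂ g t0) (hg0 : g t0 ≠ 0)
    (h : ∀ᶠ t in 𝓝[≠] t0, X t = (t - t0) ^ (-(a : ℤ)) * g t) :
    Tendsto (fun t => ‖X t‖) (𝓝[≠] t0) atTop := by
  have h1 : meromorphicOrderAt X t0 = ((-(a : ℤ) : ℤ) : WithTop ℤ) := by
    rw [meromorphicOrderAt_eq_int_iff hX]
    exact ⟨g, hg, hg0, by simpa only [smul_eq_mul] using h⟩
  have h2 : meromorphicOrderAt X t0 < 0 := by
    rw [h1]
    exact_mod_cast (by omega : -(a : ℤ) < 0)
  exact tendsto_norm_cobounded_atTop.comp (tendsto_cobounded_of_meromorphicOrderAt_neg h2)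

theorem Slow_swap {X Y : ℂ → ℂ} {t0 : ℂ} (h : Slow X Y t0) : Slow Y X t0 := by
  intro α β δ hab hne ht hz
  refine h β α δ hab.symm ?_ ?_ ?_
  · filter_upwards [hne] with t h1 h2
    exact h1 (by rw [← h2]; ring)
  · simpa only [add_comm] using ht
  · refine hz.congr fun t => ?_
    rw [add_comm ‖Y t‖, add_comm (α * Y t)]

/-- the two types of places at infinity with a fast asymptote are excluded -/
theorem no_PBr {X Y : ℂ → ℂ} {t0 : ℂ} {a k : ℕ} (ha : 1 ≤ a) (hk : 2 * a < k)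
    (hX : MeromorphicAt X t0) (hY : MeromorphicAt Y t0) (hs : Slow X Y t0)
    (h : PBr X Y t0 a k) : False := by
  obtain ⟨f, g, q, hf, hg, hq, f0, g0, q0, dX, dY, hfg⟩ := h
  obtain ⟨gx, agx, gx0, eX⟩ := pole ha hX hf f0 dX
  obtain ⟨gy, agy, gy0, eY⟩ := pole ha hY hg g0 dY
  have hLm : MeromorphicAt (fun t => -(g t0) * X t + f t0 * Y t) t0 :=
    ((MeromorphicAt.const _ _).mul hX).add ((MeromorphicAt.const _ _).mul hY)
  obtain ⟨δ, gl, agl, gl0, eL⟩ := asym hLm (k - a - 1) q hq q0 (by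
    filter_upwards [dX, dY, hfg.filter_mono nhdsWithin_le_nhds, hX.eventually_analyticAt,
      hY.eventually_analyticAt, self_mem_nhdsWithin] with t h1 h2 h3 h4 h5 h6
    have hne : t - t0 ≠ 0 := sub_ne_zero.2 h6
    have h7 : HasDerivAt (fun t => -(g t0) * X t + f t0 * Y t)
        (-(g t0) * deriv X t + f t0 * deriv Y t) t :=
      (h4.differentiableAt.hasDerivAt.const_mul _).add
        (h5.differentiableAt.hasDerivAt.const_mul _)
    rw [h7.deriv, h1, h2]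
    have h8 : -(g t0) * ((t - t0) ^ (-((a : ℤ) + 1)) * f t) +
        f t0 * ((t - t0) ^ (-((a : ℤ) + 1)) * g t) =
        (t - t0) ^ (-((a : ℤ) + 1)) * (g t * f t0 - f t * g t0) := by ring
    rw [h8, h3, ← mul_assoc, ← zpow_natCast (t - t0) k, ← zpow_add₀ hne,
      ← zpow_natCast (t - t0) (k - a - 1)]
    congr 2
    omega)
  refine hs (-(g t0)) (f t0) δ (Or.inr f0) ?_ ?_ ?_
  · filter_upwards [eL, agl.continuousAt.eventually_ne gl0 |>.filter_mono nhdsWithin_le_nhds,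
      self_mem_nhdsWithin] with t h1 h2 h3 h4
    rw [h4, sub_self] at h1
    exact mul_ne_zero (pow_ne_zero _ (sub_ne_zero.2 h3)) h2 h1.symm
  · exact tendsto_atTop_mono (fun t => le_add_of_nonneg_right (norm_nonneg _))
      (atTop_of_pole ha hX agx gx0 eX)
  · exact fast (show a < k - a - 1 + 1 by omega) agx.continuousAt agy.continuousAt
      agl.continuousAt eX eY eL

theorem no_PBI {X Y : ℂ → ℂ} {t0 : ℂ} {a k : ℕ} (ha : 1 ≤ a) (hk : 2 * a < k)
    (hX : MeromorphicAt X t0) (hY : MeromorphicAt Y t0) (hs : Slow X Y t0)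
    (h : PBI X Y t0 a k) : False := by
  obtain ⟨f, g, hf, hg, f0, g0, dX, dY⟩ := h
  obtain ⟨gy, agy, gy0, eY⟩ := pole ha hY hg g0 dY
  obtain ⟨δ, gl, agl, gl0, eL⟩ := asym hX (k - a - 1) f hf f0 (by
    filter_upwards [dX] with t h1
    rw [h1, ← zpow_natCast (t - t0) (k - a - 1)]
    congr 2
    omega)
  refine hs 1 0 δ (Or.inl one_ne_zero) ?_ ?_ ?_
  · filter_upwards [eL, agl.continuousAt.eventually_ne gl0 |>.filter_mono nhdsWithin_le_nhds,
      self_mem_nhdsWithin] with t h1 h2 h3 h4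
    have h5 : X t - δ = 0 := by rw [← h4]; ring
    rw [h5] at h1
    exact mul_ne_zero (pow_ne_zero _ (sub_ne_zero.2 h3)) h2 h1.symm
  · exact tendsto_atTop_mono (fun t => le_add_of_nonneg_left (norm_nonneg _))
      (atTop_of_pole ha hY agy gy0 eY)
  · have hgx : ContinuousAt (fun t => (t - t0) ^ a * (δ + (t - t0) ^ (k - a - 1 + 1) * gl t)) t0 := by
      have := agl.continuousAt
      fun_prop
    refine fast (show a < k - a - 1 + 1 by omega) hgx agy.continuousAt agl.continuousAt ?_ eY ?_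
    · filter_upwards [eL, self_mem_nhdsWithin] with t h1 h2
      have hne : t - t0 ≠ 0 := sub_ne_zero.2 h2
      rw [← h1, zpow_neg, zpow_natCast]
      field_simp
      ring
    · filter_upwards [eL] with t h1
      rw [← h1]
      ring

/-- the affine curvature is bounded near every place with good points nearby and without fast
asymptotes -/
theorem place {X Y : ℂ → ℂ} {t0 : ℂ} (hX : MeromorphicAt X t0) (hY : MeromorphicAt Y t0)
    (hG : ∀ᶠ t in 𝓝[≠] t0, GX X Y t) (hs : Slow X Y t0) : Bdd X Y t0 := by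
  rcases tPCL X Y t0 hX hY (hG.mono fun t h => GX_reg h) with
    ⟨X', Y', hX', hY', he⟩ | ⟨a, k, ha, hk, h⟩
  · have he2 : ∀ᶠ t in 𝓝[≠] t0, ∀ᶠ s in 𝓝 t, X s = X' s ∧ Y s = Y' s := by
      filter_upwards [eventually_eventually_nhdsWithin.2 he, self_mem_nhdsWithin] with t h1 h2
      rwa [isOpen_compl_singleton.nhdsWithin_eq h2] at h1
    have hG' : ∀ᶠ t in 𝓝[≠] t0, GX X' Y' t := by
      filter_upwards [hG, he2] with t h1 h2
      exact GX_congr h1 (h2.mono fun s h => h.1) (h2.mono fun s h => h.2)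
    have hnz : ¬ ∀ᶠ t in 𝓝 t0, Wr X' Y' t = 0 := by
      intro hcon
      obtain ⟨t, h1, h2⟩ := (hG'.and (nhdsWithin_le_nhds hcon)).exists
      exact (GX_reg h1).2.2 h2
    have hnz' : ¬ ∀ᶠ t in 𝓝 t0, Wr Y' X' t = 0 := by
      intro hcon
      apply hnz
      filter_upwards [hcon] with t ht
      rw [Wr_swap, Pi.neg_apply, neg_eq_zero] at ht
      exact ht
    have hb : Bdd X' Y' t0 := by
      rcases le_total (analyticOrderAt (deriv X') t0) (analyticOrderAt (deriv Y') t0) with ho | ho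
      · obtain ⟨C, hC⟩ := tTMI X' Y' t0 (tOBR fin_end fin_nex tGIN X' Y' t0 hX' hY' hnz ho
          (hG'.mono fun t h => h.1))
        exact ⟨C, hC.filter_mono nhdsWithin_le_nhds⟩
      · obtain ⟨C, hC⟩ := tTMI Y' X' t0 (tOBR fin_end fin_nex tGIN Y' X' t0 hY' hX' hnz' ho
          (hG'.mono fun t h => h.2))
        refine ⟨C, ?_⟩
        filter_upwards [hC.filter_mono nhdsWithin_le_nhds] with t ht
        rw [Mi_swap X' Y', Wr_swap X' Y', Pi.neg_apply, norm_neg] at ht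
        exact ht
    obtain ⟨C, hC⟩ := hb
    refine ⟨C, ?_⟩
    filter_upwards [he2, hC] with t h1 h2
    have e1 : X =ᶠ[𝓝 t] X' := h1.mono fun s h => h.1
    have e2 : Y =ᶠ[𝓝 t] Y' := h1.mono fun s h => h.2
    rw [Mi_congr e1 e2, (Wr_congr e1 e2).eq_of_nhds]
    exact h2
  · by_cases hak : 2 * a < k
    · exfalso
      rcases h with h | h | h
      · exact no_PBr ha hak hX hY hs h
      · exact no_PBI ha hak hX hY hs h
      · exact no_PBI ha hak hY hX (Slow_swap hs) h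
    · have hak' : k ≤ 2 * a := by omega
      rcases h with h | h | h
      · exact tPPB X Y t0 a k ha hk hak' h
      · exact tPPI X Y t0 a k ha hk hak' h
      · obtain ⟨C, hC⟩ := tPPI Y X t0 a k ha hk hak' h
        refine ⟨C, ?_⟩
        filter_upwards [hC] with t h1
        rw [Mi_swap X Y, Wr_swap X Y, Pi.neg_apply, norm_neg] at h1
        exact h1

end Pool.Agent.V5helper83.OA
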