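import Pool.Agent.V5helper83.OA.Curve
import Pool.Agent.H719R4.FX.AEX
import Pool.Agent.H719R4.FX.OFO
import Pool.Agent.H719R4.FZ.AAY

/-! The start: good points near an analytic point of the oval. -/

open Complex Set Filter Topology

namespace Pool.Agent.V5helper83.OA

open H719FX H738CZ

theorem ball_real {s0 r : ℝ} {t : ℝ} : (t : ℂ) ∈ Metric.ball (s0 : ℂ) r ↔ |t - s0| < r := by
  rw [Metric.mem_ball, dist_eq_norm, ← Complex.ofReal_sub, Complex.norm_real, Real.norm_eq_abs]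

/-- identity theorem on a disc with real centre -/
theorem ident {F : ℂ → ℂ} {s0 r : ℝ} (hr : 0 < r) (hF : DifferentiableOn ℂ F (Metric.ball (s0 : ℂ) r))
    (h : ∀ t : ℝ, (t : ℂ) ∈ Metric.ball (s0 : ℂ) r → F t = 0) :
    ∀ z ∈ Metric.ball (s0 : ℂ) r, F z = 0 := by
  have hopen : IsOpen (Metric.ball (s0 : ℂ) r) := Metric.isOpen_ball
  have h2 := (hF.analyticOnNhd hopen).eqOn_zero_of_preconnected_of_frequently_eq_zero
    (convex_ball (s0 : ℂ) r).isPreconnected (Metric.mem_ball_self hr) (AAY_freq (by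
      have h1 : ∀ᶠ t : ℝ in 𝓝 s0, (t : ℂ) ∈ Metric.ball (s0 : ℂ) r :=
        Complex.continuous_ofReal.continuousAt.preimage_mem_nhds
          (hopen.mem_nhds (Metric.mem_ball_self hr))
      filter_upwards [h1] with t ht
      exact h t ht))
  exact fun z hz => h2 hz

/-- real derivative of the complex extension -/
theorem deriv_ext {Z : ℂ → ℂ} {γ : ℝ → ℂ} {s0 r : ℝ}
    (hZ : DifferentiableOn ℂ Z (Metric.ball (s0 : ℂ) r))
    (h : ∀ t : ℝ, (t : ℂ) ∈ Metric.ball (s0 : ℂ) r → Z t = γ t) {t : ℝ}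
    (ht : (t : ℂ) ∈ Metric.ball (s0 : ℂ) r) {g : ℂ} (hg : HasDerivAt γ g t) :
    deriv Z t = g := by
  have hopen : IsOpen (Metric.ball (s0 : ℂ) r) := Metric.isOpen_ball
  have h1 : HasDerivAt (fun y : ℝ => Z y) (deriv Z t) t :=
    ((hZ.differentiableAt (hopen.mem_nhds ht)).hasDerivAt).comp_ofReal
  have h2 : ∀ᶠ y : ℝ in 𝓝 t, (y : ℂ) ∈ Metric.ball (s0 : ℂ) r :=
    Complex.continuous_ofReal.continuousAt.preimage_mem_nhds (hopen.mem_nhds ht)
  have h3 : HasDerivAt γ (deriv Z t) t := h1.congr_of_eventuallyEq (by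
    filter_upwards [h2] with y hy
    exact (h y hy).symm)
  exact h3.unique hg

theorem fin_ost : StOST := by
  obtain ⟨-, -, -, -, -, hLAW, hINI, hCPX, hTRL, hDSC⟩ := cz
  exact tOST (tOGD hINI hCPX hLAW) tSGN

theorem start {γ : ℝ → ℂ} {ρ : ℝ → ℝ} (hOv : IsOval γ ρ) {K : ℝ → ℝ → ℝ} {U : Set (ℝ × ℝ)}
    (hK : OInt γ K U) {s0 : ℝ} (hs0 : AnalyticAt ℝ γ s0) :
    ∃ (X Y : ℂ → ℂ) (r v : ℝ), 0 < r ∧ DifferentiableOn ℂ X (Metric.ball (s0 : ℂ) r) ∧
      DifferentiableOn ℂ Y (Metric.ball (s0 : ℂ) r) ∧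
      (∀ t : ℝ, (t : ℂ) ∈ Metric.ball (s0 : ℂ) r → X t = (γ t).re ∧ Y t = (γ t).im) ∧
      (v : ℂ) ∈ Metric.ball (s0 : ℂ) r ∧ GX X Y v := by
  obtain ⟨Z, r1, hr1, hZ, hZγ⟩ := tAEX γ s0 hs0
  have hcγ : AnalyticAt ℝ (fun s => (starRingEnd ℂ) (γ s)) s0 :=
    (Complex.conjCLE.toContinuousLinearMap.analyticAt (γ s0)).comp hs0
  obtain ⟨W, r2, hr2, hW, hWγ⟩ := tAEX (fun s => (starRingEnd ℂ) (γ s)) s0 hcγ
  set r := min r1 r2 with hr
  have hrp : 0 < r := lt_min hr1 hr2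
  have hb1 : Metric.ball ((s0 : ℂ)) r ⊆ Metric.ball ((s0 : ℂ)) r1 :=
    Metric.ball_subset_ball (min_le_left _ _)
  have hb2 : Metric.ball ((s0 : ℂ)) r ⊆ Metric.ball ((s0 : ℂ)) r2 :=
    Metric.ball_subset_ball (min_le_right _ _)
  have hZ' := hZ.mono hb1
  have hW' := hW.mono hb2
  have hZr : ∀ t : ℝ, (t : ℂ) ∈ Metric.ball (s0 : ℂ) r → Z t = γ t := fun t ht => hZγ t (hb1 ht)
  have hWr : ∀ t : ℝ, (t : ℂ) ∈ Metric.ball (s0 : ℂ) r → W t = (starRingEnd ℂ) (γ t) :=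
    fun t ht => hWγ t (hb2 ht)
  have hopen : IsOpen (Metric.ball (s0 : ℂ) r) := Metric.isOpen_ball
  set X : ℂ → ℂ := fun t => (Z t + W t) / 2 with hXdef
  set Y : ℂ → ℂ := fun t => -I * (Z t - W t) / 2 with hYdef
  have hX : DifferentiableOn ℂ X (Metric.ball (s0 : ℂ) r) := (hZ'.add hW').div_const 2
  have hY : DifferentiableOn ℂ Y (Metric.ball (s0 : ℂ) r) :=
    ((hZ'.sub hW').const_mul (-I)).div_const 2
  have hXr : ∀ t : ℝ, (t : ℂ) ∈ Metric.ball (s0 : ℂ) r → X t = ((γ t).re : ℂ) := by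
    intro t ht
    simp only [hXdef, hZr t ht, hWr t ht]
    rw [Complex.add_conj]
    push_cast
    ring
  have hYr : ∀ t : ℝ, (t : ℂ) ∈ Metric.ball (s0 : ℂ) r → Y t = ((γ t).im : ℂ) := by
    intro t ht
    simp only [hYdef, hZr t ht, hWr t ht]
    rw [Complex.sub_conj]
    push_cast
    linear_combination (-((γ t).im : ℂ)) * I_sq
  -- derivatives on the real axis
  have hder : ∀ t : ℝ, HasDerivAt (fun s => ((γ s).re : ℂ)) (-(ρ t * Real.sin t) : ℝ) t ∧
      HasDerivAt (fun s => ((γ s).im : ℂ)) (ρ t * Real.cos t : ℝ) t := by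
    intro t
    have h1 := hOv.der t
    have e : (ρ t : ℂ) * I * cexp (t * I) = ⟨-(ρ t * Real.sin t), ρ t * Real.cos t⟩ := by
      apply Complex.ext
      · simp [Complex.exp_ofReal_mul_I_re, Complex.exp_ofReal_mul_I_im]
      · simp [Complex.exp_ofReal_mul_I_re, Complex.exp_ofReal_mul_I_im]
    rw [e] at h1
    exact ⟨(Complex.reCLM.hasFDerivAt.comp_hasDerivAt t h1).ofReal_comp,
      (Complex.imCLM.hasFDerivAt.comp_hasDerivAt t h1).ofReal_comp⟩
  have hdX : ∀ t : ℝ, (t : ℂ) ∈ Metric.ball (s0 : ℂ) r → deriv X t = -(ρ t * Real.sin t) := by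
    intro t ht
    have := deriv_ext hX hXr ht (hder t).1
    rw [this]
    push_cast
    ring
  have hdY : ∀ t : ℝ, (t : ℂ) ∈ Metric.ball (s0 : ℂ) r → deriv Y t = ρ t * Real.cos t := by
    intro t ht
    have := deriv_ext hY hYr ht (hder t).2
    rw [this]
    push_cast
    ring
  -- the radius of curvature
  set R : ℂ → ℂ := fun t => -(deriv X t * Complex.sin t) + deriv Y t * Complex.cos t with hR
  have hX1 : DifferentiableOn ℂ (deriv X) (Metric.ball (s0 : ℂ) r) := hX.deriv hopen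
  have hY1 : DifferentiableOn ℂ (deriv Y) (Metric.ball (s0 : ℂ) r) := hY.deriv hopen
  have hRd : DifferentiableOn ℂ R (Metric.ball (s0 : ℂ) r) :=
    (hX1.mul Complex.differentiable_sin.differentiableOn).neg.add
      (hY1.mul Complex.differentiable_cos.differentiableOn)
  have hRρ : ∀ t : ℝ, (t : ℂ) ∈ Metric.ball (s0 : ℂ) r → R t = ρ t := by
    intro t ht
    simp only [hR]
    rw [hdX t ht, hdY t ht]
    have h1 : (Real.sin t : ℂ) ^ 2 + (Real.cos t : ℂ) ^ 2 = 1 := by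
      exact_mod_cast Real.sin_sq_add_cos_sq t
    rw [← Complex.ofReal_sin, ← Complex.ofReal_cos]
    linear_combination (ρ t : ℂ) * h1
  have hX2 : ∀ z ∈ Metric.ball (s0 : ℂ) r, HasDerivAt X (-(R z * Complex.sin z)) z := by
    intro z hz
    have h1 := ident (F := fun z => deriv X z + R z * Complex.sin z) hrp
      (hX1.add (hRd.mul Complex.differentiable_sin.differentiableOn)) (by
        intro t ht
        show deriv X t + R t * Complex.sin t = 0
        rw [hdX t ht, hRρ t ht, ← Complex.ofReal_sin]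
        ring) z hz
    have h2 : deriv X z = -(R z * Complex.sin z) := by
      have h3 : deriv X z + R z * Complex.sin z = 0 := h1
      linear_combination h3
    rw [← h2]
    exact (hX.differentiableAt (hopen.mem_nhds hz)).hasDerivAt
  have hY2 : ∀ z ∈ Metric.ball (s0 : ℂ) r, HasDerivAt Y (R z * Complex.cos z) z := by
    intro z hz
    have h1 := ident (F := fun z => deriv Y z - R z * Complex.cos z) hrp
      (hY1.sub (hRd.mul Complex.differentiable_cos.differentiableOn)) (by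
        intro t ht
        show deriv Y t - R t * Complex.cos t = 0
        rw [hdY t ht, hRρ t ht, ← Complex.ofReal_cos]
        ring) z hz
    have h2 : deriv Y z = R z * Complex.cos z := by
      have h3 : deriv Y z - R z * Complex.cos z = 0 := h1
      linear_combination h3
    rw [← h2]
    exact (hY.differentiableAt (hopen.mem_nhds hz)).hasDerivAt
  obtain ⟨v, hv, hvs, hvc⟩ := OFO_real s0 r hrp
  have hvb : (v : ℂ) ∈ Metric.ball (s0 : ℂ) r := ball_real.2 hv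
  obtain ⟨g1, g2⟩ := fin_ost γ ρ hOv K U hK R X Y s0 r hrp hRd hRρ
    (fun z hz => ⟨hX2 z hz, hY2 z hz⟩) v hvb
  exact ⟨X, Y, r, v, hrp, hX, hY, fun t ht => ⟨hXr t ht, hYr t ht⟩, hvb, g1 hvs, g2 hvc⟩

end Pool.Agent.V5helper83.OA
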